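import Pool.Agent.H4FF.Model

/-!
The product formula.
-/

namespace Pool.Agent.H4FF

open IntermediateField Module Polynomial
open scoped WithZero

universe u v

section

variable {k : Type u} {K : Type v} [Field k] [Field K] [Algebra k K]

theorem isTranscendenceBasis_single (htr : Algebra.trdeg k K = 1) {y : K}
    (hy : Transcendental k y) : IsTranscendenceBasis k (fun _ : Unit => y) := by
  have h1 : AlgebraicIndependent k (fun _ : Unit => y) :=
    (algebraicIndependent_unique_type_iff (x := fun _ : Unit => y)).2 hy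
  apply h1.isTranscendenceBasis_of_lift_trdeg_le_of_finite
  rw [htr]
  simp

theorem isAlgebraic_adjoin (htr : Algebra.trdeg k K = 1) {y : K}
    (hy : Transcendental k y) : Algebra.IsAlgebraic k⟮y⟯ K := by
  have h := (isTranscendenceBasis_single htr hy).isAlgebraic_field
  rwa [Set.range_const] at h

theorem finiteDimensional_adjoin (hfg : (⊤ : IntermediateField k K).FG)
    (htr : Algebra.trdeg k K = 1) {y : K}
    (hy : Transcendental k y) : FiniteDimensional k⟮y⟯ K := by
  have h1 := isAlgebraic_adjoin htr hy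
  have h2 : Algebra.EssFiniteType k K := IntermediateField.fg_top_iff.1 hfg
  have h3 : Algebra.EssFiniteType k⟮y⟯ K := Algebra.EssFiniteType.of_comp k k⟮y⟯ K
  exact Algebra.finite_of_essFiniteType_of_isAlgebraic

variable [CharZero k]

omit [CharZero k] in
theorem adjoin_inv (x : K) : k⟮x⁻¹⟯ = k⟮x⟯ := by
  apply le_antisymm
  · rw [adjoin_simple_le_iff]
    exact inv_mem (mem_adjoin_simple_self k x)
  · rw [adjoin_simple_le_iff]
    have h := inv_mem (mem_adjoin_simple_self k x⁻¹)
    rwa [inv_inv] at h

theorem exists_finset (hfg : (⊤ : IntermediateField k K).FG) (htr : Algebra.trdeg k K = 1)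
    (x : K) : ∃ S : Finset (Place k K), (∀ v, v.lg x ≠ 0 → v ∈ S) ∧
      ∑ v ∈ S, (v.deg : ℤ) * v.lg x = 0 := by
  classical
  by_cases hx : IsAlgebraic k x
  · exact ⟨∅, fun v hv => absurd (v.lg_of_isAlgebraic hx) hv, Finset.sum_empty⟩
  · have hx0 : x ≠ 0 := fun h => hx (by rw [h]; exact isAlgebraic_zero)
    have hx' : Transcendental k x⁻¹ := fun h => hx (by simpa using h.inv)
    have i1 := finiteDimensional_adjoin hfg htr hx
    have i2 := finiteDimensional_adjoin hfg htr hx'
    obtain ⟨S, hS1, hS2⟩ := zeros hx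
    obtain ⟨T, hT1, hT2⟩ := zeros hx'
    have hT3 : ∀ v, v ∈ T ↔ 0 < v.lg x := by
      intro v
      rw [hT1, ← v.lg_neg_iff (inv_ne_zero hx0), v.lg_inv]
      constructor <;> intro h <;> linarith
    have hS3 : ∀ v, v ∈ S ↔ v.lg x < 0 := by
      intro v
      rw [hS1, ← v.lg_neg_iff hx0]
    have hdis : Disjoint S T := by
      rw [Finset.disjoint_left]
      intro v h1 h2
      rw [hS3] at h1
      rw [hT3] at h2
      linarith
    refine ⟨S ∪ T, ?_, ?_⟩
    · intro v hv
      rw [Finset.mem_union, hS3, hT3]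
      exact lt_or_gt_of_ne hv
    · rw [Finset.sum_union hdis, hS2]
      have h1 : ∑ v ∈ T, (v.deg : ℤ) * v.lg x = finrank k⟮x⟯ K := by
        rw [adjoin_inv] at hT2
        rw [← neg_inj, ← hT2, ← Finset.sum_neg_distrib]
        refine Finset.sum_congr rfl fun v _ => ?_
        rw [v.lg_inv, mul_neg]
      rw [h1]
      ring

/-- The places at which the valuation of `x` is not `1`. -/
theorem finite_support (hfg : (⊤ : IntermediateField k K).FG) (htr : Algebra.trdeg k K = 1)
    (x : K) : {v : Place k K | v.lg x ≠ 0}.Finite := by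
  obtain ⟨S, hS, -⟩ := exists_finset hfg htr x
  exact S.finite_toSet.subset hS

theorem prod_formula (hfg : (⊤ : IntermediateField k K).FG) (htr : Algebra.trdeg k K = 1)
    (x : K) : ∑ᶠ v : Place k K, (v.deg : ℤ) * v.lg x = 0 := by
  obtain ⟨S, hS, hS2⟩ := exists_finset hfg htr x
  rw [finsum_eq_sum_of_support_subset _ (s := S), hS2]
  intro v hv
  apply hS
  intro h
  apply hv
  change (v.deg : ℤ) * v.lg x = 0
  rw [h, mul_zero]

end

end Pool.Agent.H4FF
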