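import Pool.Agent.H4FF.Local
import Pool.Agent.H4Abcd.Main

/-!
Families of words for the blocks.
-/

namespace Pool.Agent.H4FF

open IntermediateField Module Submodule
open scoped WithZero
open Pool.Agent.H4Abcd (nD nO lvl act spanW wle mat mat_zero mat_succ)

universe u v w

section

variable {K : Type v} [Field K] [Algebra ℚ K] {ι : Type w}
variable (E : Option ι → Derivation ℚ K K)

/-- A good family of words for a vector with only the obvious relation. -/
theorem exists_good {N : ℕ} (y : Fin (N + 1) → K) (hy : ∑ i, y i = 0) (hy0 : y 0 ≠ 0)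
    (halg : ∀ f : K, (∀ l, E l f = 0) → IsAlgebraic ℚ f)
    (hrel : ∀ c : Fin (N + 1) → K, (∀ i, IsAlgebraic ℚ (c i)) → ∑ i, c i * y i = 0 →
      ∀ i j, c i = c j) :
    ∃ (w : Fin N → List (Option ι)) (q : ℕ), Good E y w ∧
      N = finrank K (spanW E y (wle 1)) + q ∧ 2 * ∑ j, nD (w j) ≤ (q + 1) * (q + 2) := by
  classical
  have hN := H4Abcd.finrank_univ E y hy halg hrel
  have hle : finrank K (spanW E y (wle 1)) ≤ N :=
    (Submodule.finrank_mono (H4Abcd.spanW_mono E y (Set.subset_univ _))).trans_eq hN
  have hynz : y ≠ 0 := fun h => hy0 (by rw [h]; rfl)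
  have h0 : spanW E y (wle 0) = span K {y} := by
    rw [spanW]
    congr 1
    ext x
    simp only [Set.mem_image, wle, Set.mem_ofPred_eq, Nat.le_zero, List.length_eq_zero_iff,
      Set.mem_singleton_iff]
    constructor
    · rintro ⟨u, rfl, rfl⟩; rfl
    · rintro rfl; exact ⟨[], rfl, rfl⟩
  have h01 : spanW E y (wle 0) ≤ spanW E y (wle 1) :=
    H4Abcd.spanW_mono E y fun u hu => Nat.le_succ_of_le hu
  have hf0 : finrank K (spanW E y (wle 0)) = 1 := by
    rw [h0, finrank_span_singleton hynz]
  rcases Nat.lt_or_ge (finrank K (spanW E y (wle 1))) 2 with hlt | hge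
  · have h1 : finrank K (spanW E y (wle 1)) = 1 := by
      have := Submodule.finrank_mono h01
      omega
    have h2 : spanW E y (wle 0) = spanW E y (wle (0 + 1)) :=
      eq_of_le_of_finrank_le h01 (by rw [hf0, h1])
    have h3 := H4Abcd.stable E y h2
    have h4 : N = 1 := hN.symm.trans (by rw [← h3, hf0])
    subst h4
    refine ⟨fun _ => [], 0, ⟨?_, ?_⟩, by rw [h1], by simp [nD]⟩
    · rw [linearIndependent_unique_iff]
      exact hynz
    · intro j u hu
      rw [H4Abcd.lvl_lt_iff] at hu
      simp [nO] at hu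
  · obtain ⟨r, hr⟩ := Nat.exists_eq_add_of_le hge
    obtain ⟨m, hm⟩ := Nat.exists_eq_add_of_le hle
    have hNm : N = m + r + 2 := by omega
    subst hNm
    obtain ⟨w, hw1, hw2, hw3⟩ := H4Abcd.exists_family E y hN
    have hA := H4Abcd.sum_nD_le E y w hN hw1 hw2 (by omega)
    refine ⟨w, m, ⟨hw1, ?_⟩, by omega, hA⟩
    intro j u hu
    refine Submodule.span_mono ?_ (hw2 u)
    rintro _ ⟨i, hi, rfl⟩
    refine ⟨i, ?_, rfl⟩
    by_contra hij
    have : lvl (w j) ≤ lvl (w i) := hw3 (not_lt.1 hij)
    exact absurd (lt_of_le_of_lt (this.trans hi) hu) (lt_irrefl _)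

end

section

variable {k : Type u} {K : Type v} [Field k] [Field K] [Algebra k K] [CharZero k] [Algebra ℚ K]
variable (hfg : (⊤ : IntermediateField k K).FG) (htr : Algebra.trdeg k K = 1)
variable {ι : Type w} {N : ℕ}
variable (E : Option ι → Derivation ℚ K K) (y : Fin (N + 1) → K) (w : Fin N → List (Option ι))
variable (hE0 : ∀ c : k, E none (algebraMap k K c) = 0) (hD0 : ∃ f, E none f ≠ 0)
variable (hEk : ∀ b (c : k), ∃ c' : k, E (some b) (algebraMap k K c) = algebraMap k K c')

include hfg htr hE0 hD0 hEk in
/-- The local inequality when all coordinates are bounded by `q`. -/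
theorem local_flat (hy : ∑ i, y i = 0) (hw : Good E y w) (v : Place k K)
    {q : K} (hq0 : q ≠ 0) (hq : ∀ i, v.val (y i) ≤ v.val q) {t : K} (ht : v.lg t = -1) :
    v.lg (Delta E y w) ≤ N * v.lg q + (∑ j, nD (w j) : ℕ) * v.lg (E none t) := by
  have hDt := der_unif_ne_zero hfg htr v (E none) hE0 hD0 ht
  have ht0 := ne_zero_of_lg ht
  have hne := Delta_ne_zero E y w hy hw
  set g := (E none t)⁻¹ with hg
  have hg0 : g ≠ 0 := inv_ne_zero hDt
  have h1 := det_frameK E y w hw g (-(g * (E none q / q))) (fun b => E (some b) t / E none t)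
    (Pi.single 0 1)
  rw [det_single_eq E y w hy 0] at h1
  have h2 : ∀ w i, v.val (frameK E y g (-(g * (E none q / q)))
      (fun b => E (some b) t / E none t) w i) ≤ v.val q := by
    intro w i
    induction w with
    | nil => exact hq i
    | cons a w ih =>
      cases a with
      | none =>
        rw [frameK_none]
        set f := frameK E y g (-(g * (E none q / q))) (fun b => E (some b) t / E none t) w i
        have h3 : g * E none f + -(g * (E none q / q)) * f = g * (q * E none (f / q)) := by
          rw [Derivation.leibniz_div]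
          simp only [smul_eq_mul]
          field_simp
          ring
        have h4 : v.val (f / q) ≤ 1 := by
          rw [map_div₀]
          exact div_le_one_of_le₀ ih zero_le
        have h5 := sharp' hfg htr v (E none) (v.val (E none t)) (fun c => by
          rw [hE0, map_zero]; exact zero_le) ht le_rfl h4
        rw [h3, map_mul, map_mul, hg, map_inv₀]
        calc (v.val (E none t))⁻¹ * (v.val q * v.val (E none (f / q)))
            ≤ (v.val (E none t))⁻¹ * (v.val q * v.val (E none t)) :=
              mul_le_mul' le_rfl (mul_le_mul' le_rfl h5)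
          _ = v.val q := by
            rw [mul_comm (v.val q), ← mul_assoc, inv_mul_cancel₀ (v.val_ne_zero hDt), one_mul]
      | some b =>
        rw [frameK_some]
        exact (preserve_some hfg htr E hE0 hD0 hEk v ht b _).trans ih
  have h3 := lg_det_le v 0 _ (fun _ => q) (fun _ => hq0) (fun j i => h2 (w j) i) (by
    rw [h1]; exact mul_ne_zero (pow_ne_zero _ hg0) hne)
  rw [h1, v.lg_mul (pow_ne_zero _ hg0) hne, v.lg_pow, Finset.sum_const, Finset.card_univ,
    Fintype.card_fin, nsmul_eq_mul] at h3
  have h4 : v.lg g = - v.lg (E none t) := by rw [hg, v.lg_inv]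
  rw [h4] at h3
  push_cast at h3 ⊢
  linarith

end

end Pool.Agent.H4FF
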