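import Pool.Agent.H4FF.Local

/-!
The degree of the divisor of a derivation.
-/

namespace Pool.Agent.H4FF

open IntermediateField Module
open scoped WithZero

universe u v w

section

variable {k : Type u} {K : Type v} [Field k] [Field K] [Algebra k K] [CharZero k]
variable (hfg : (⊤ : IntermediateField k K).FG) (htr : Algebra.trdeg k K = 1)
variable {R : Type w} [CommRing R] [Algebra R K]

/-- The kernel of a derivation. -/
def kerField (δ : Derivation R K K) (hδ : ∀ c : k, δ (algebraMap k K c) = 0) :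
    IntermediateField k K where
  carrier := {x | δ x = 0}
  mul_mem' := fun {a b} (ha : δ a = 0) (hb : δ b = 0) => by
    change δ (a * b) = 0
    rw [Derivation.leibniz, ha, hb, smul_zero, smul_zero, add_zero]
  one_mem' := δ.map_one_eq_zero
  add_mem' := fun {a b} (ha : δ a = 0) (hb : δ b = 0) => by
    change δ (a + b) = 0
    rw [map_add, ha, hb, add_zero]
  zero_mem' := map_zero δ
  algebraMap_mem' := hδ
  inv_mem' := fun a (ha : δ a = 0) => by
    change δ a⁻¹ = 0
    rw [Derivation.leibniz_inv, ha, smul_zero]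

include htr in
/-- A derivation vanishing on the constants and on a nonconstant function is zero. -/
theorem der_eq_zero (δ : Derivation R K K) (hδ : ∀ c : k, δ (algebraMap k K c) = 0)
    {y : K} (hy : Transcendental k y) (hy0 : δ y = 0) (f : K) : δ f = 0 := by
  have hle : k⟮y⟯ ≤ kerField δ hδ := by
    rw [adjoin_simple_le_iff]; exact hy0
  have h1 := isAlgebraic_adjoin htr hy
  have h2 : IsAlgebraic (kerField δ hδ) f := by
    obtain ⟨p, hp, hpf⟩ := h1.isAlgebraic f
    refine ⟨p.map (inclusion hle).toRingHom, ?_, ?_⟩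
    · rw [Ne, Polynomial.map_eq_zero_iff]
      · exact hp
      · exact (inclusion hle).injective
    · rw [Polynomial.aeval_def, Polynomial.eval₂_map]
      exact hpf
  let δ' : Derivation (kerField δ hδ) K K :=
    { toFun := δ
      map_add' := map_add δ
      map_smul' := fun c x => by
        have hc : δ (c : K) = 0 := c.2
        rw [Algebra.smul_def, RingHom.id_apply, Algebra.smul_def]
        change δ ((c : K) * x) = (c : K) * δ x
        rw [Derivation.leibniz, hc, smul_zero, add_zero, smul_eq_mul]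
      map_one_eq_zero' := δ.map_one_eq_zero
      leibniz' := δ.leibniz }
  have h3 := h2.isIntegral
  have h5 : Polynomial.aeval f (minpoly (kerField δ hδ) f) = 0 := minpoly.aeval _ f
  have h6 : Polynomial.aeval f (Polynomial.derivative (minpoly (kerField δ hδ) f)) ≠ 0 :=
    (minpoly.irreducible h3).separable.aeval_derivative_ne_zero h5
  have h7 := δ'.map_aeval (minpoly (kerField δ hδ) f) f
  rw [h5, map_zero, smul_eq_mul] at h7
  exact (mul_eq_zero.1 h7.symm).resolve_left h6

omit [CharZero k] in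
theorem finite_support_mul {f : Place k K → ℤ} (hf : {v : Place k K | f v ≠ 0}.Finite) :
    (Function.support fun v : Place k K => (v.deg : ℤ) * f v).Finite := by
  apply hf.subset
  intro v hv h
  apply hv
  change (v.deg : ℤ) * f v = 0
  rw [h, mul_zero]

include hfg htr

/-- There is a place. -/
theorem exists_place : Nonempty (Place k K) := by
  obtain ⟨y, hy⟩ := exists_transcendental htr
  have i1 := finiteDimensional_adjoin hfg htr hy
  obtain ⟨S, -, hS⟩ := zeros hy
  by_contra h
  rw [not_nonempty_iff] at h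
  have h1 : S = ∅ := Finset.eq_empty_of_isEmpty S
  rw [h1, Finset.sum_empty] at hS
  have h2 : 0 < finrank k⟮y⟯ K := finrank_pos
  omega

theorem lg_der_unif (v : Place k K) (δ : Derivation R K K)
    (hδ : ∀ c : k, δ (algebraMap k K c) = 0) (hδ0 : ∃ f, δ f ≠ 0) {t t' : K}
    (ht : v.lg t = -1) (ht' : v.lg t' = -1) : v.lg (δ t) = v.lg (δ t') := by
  have key : ∀ t t' : K, v.lg t = -1 → v.lg t' = -1 → v.lg (δ t) ≤ v.lg (δ t') := by
    intro t t' ht ht'
    rw [v.lg_le_lg (der_unif_ne_zero hfg htr v δ hδ hδ0 ht)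
      (der_unif_ne_zero hfg htr v δ hδ hδ0 ht')]
    refine sharp' hfg htr v δ _ (fun c => by rw [hδ, map_zero]; exact zero_le) ht' le_rfl ?_
    rw [← v.lg_nonpos_iff (ne_zero_of_lg ht), ht]
    norm_num
  exact le_antisymm (key t t' ht ht') (key t' t ht' ht)

theorem finite_support_der (δ : Derivation R K K)
    (hδ : ∀ c : k, δ (algebraMap k K c) = 0) (hδ0 : ∃ f, δ f ≠ 0) (t : Place k K → K)
    (ht : ∀ v : Place k K, v.lg (t v) = -1) : {v : Place k K | v.lg (δ (t v)) ≠ 0}.Finite := by
  obtain ⟨y, hy⟩ := exists_transcendental htr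
  have hy0 : y ≠ 0 := fun h => hy (by rw [h]; exact isAlgebraic_zero)
  have i1 := finiteDimensional_adjoin hfg htr hy
  obtain ⟨G, hG⟩ := exists_gens (k := k) y
  -- a nonconstant function whose derivative is not zero
  have hfin : ({v : Place k K | v.lg y ≠ 0} ∪ ({v : Place k K | v.lg (δ y) ≠ 0} ∪
      ⋃ g ∈ G, {v : Place k K | v.lg (δ g) ≠ 0})).Finite :=
    (finite_support hfg htr y).union ((finite_support hfg htr (δ y)).union
      (Set.Finite.biUnion G.finite_toSet fun g _ => finite_support hfg htr (δ g)))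
  apply hfin.subset
  intro v hv
  by_contra hnot
  simp only [Set.mem_union, Set.mem_iUnion, not_or, not_exists, Set.mem_ofPred_eq, not_not] at hnot
  obtain ⟨h1, h2, h3⟩ := hnot
  have ht0 := ne_zero_of_lg (ht v)
  have hδt := der_unif_ne_zero hfg htr v δ hδ hδ0 (ht v)
  have htle : v.val (t v) ≤ 1 := by
    rw [← v.lg_nonpos_iff ht0, ht]; norm_num
  have hvy : v.val y ≤ 1 := by
    rw [← v.lg_nonpos_iff hy0, h1]
  obtain ⟨hG1, hG2⟩ := hG v hvy
  have h4 : v.lg (δ (t v)) ≤ 0 := by
    rw [v.lg_nonpos_iff hδt]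
    refine drop_bound δ v 1 (fun c => by rw [hδ, map_zero]; exact zero_le) (G : Set K) hG1 ?_
      htle (hG2 _ htle)
    intro g hg
    by_cases hg0 : δ g = 0
    · rw [hg0, map_zero]; exact zero_le
    · rw [← v.lg_nonpos_iff hg0, h3 g hg]
  have hδy : δ y ≠ 0 := by
    intro h0
    obtain ⟨f, hf⟩ := hδ0
    exact hf (der_eq_zero htr δ hδ hy h0 f)
  have h5 : 0 ≤ v.lg (δ (t v)) := by
    rw [← h2, v.lg_le_lg hδy hδt]
    exact sharp' hfg htr v δ _ (fun c => by rw [hδ, map_zero]; exact zero_le) (ht v) le_rfl hvy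
  exact hv (le_antisymm h4 h5)

/-- The degree of the divisor of a derivation does not depend on the derivation. -/
theorem canon_unique (δ δ' : Derivation R K K)
    (hδ : ∀ c : k, δ (algebraMap k K c) = 0) (hδ0 : ∃ f, δ f ≠ 0)
    (hδ' : ∀ c : k, δ' (algebraMap k K c) = 0) (hδ0' : ∃ f, δ' f ≠ 0) (t t' : Place k K → K)
    (ht : ∀ v : Place k K, v.lg (t v) = -1) (ht' : ∀ v : Place k K, v.lg (t' v) = -1) :
    ∑ᶠ v : Place k K, (v.deg : ℤ) * v.lg (δ (t v)) =
      ∑ᶠ v : Place k K, (v.deg : ℤ) * v.lg (δ' (t' v)) := by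
  obtain ⟨y, hy⟩ := exists_transcendental htr
  have hy1 : δ y ≠ 0 := fun h0 => by
    obtain ⟨f, hf⟩ := hδ0
    exact hf (der_eq_zero htr δ hδ hy h0 f)
  have hy2 : δ' y ≠ 0 := fun h0 => by
    obtain ⟨f, hf⟩ := hδ0'
    exact hf (der_eq_zero htr δ' hδ' hy h0 f)
  set c := δ' y / δ y with hc
  have hc0 : c ≠ 0 := div_ne_zero hy2 hy1
  have h1 : ∀ f, δ' f = c * δ f := by
    intro f
    have h2 := der_eq_zero htr (δ' - c • δ) (fun a => by
      rw [Derivation.sub_apply, Derivation.smul_apply, hδ, hδ', smul_zero, sub_zero]) hy (by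
      rw [Derivation.sub_apply, Derivation.smul_apply, smul_eq_mul, hc, div_mul_cancel₀ _ hy1,
        sub_self]) f
    rw [Derivation.sub_apply, Derivation.smul_apply, smul_eq_mul] at h2
    exact sub_eq_zero.1 h2
  have h2 : ∀ v : Place k K, (v.deg : ℤ) * v.lg (δ' (t' v)) =
      (v.deg : ℤ) * v.lg c + (v.deg : ℤ) * v.lg (δ (t v)) := by
    intro v
    rw [h1, v.lg_mul hc0 (der_unif_ne_zero hfg htr v δ hδ hδ0 (ht' v)),
      lg_der_unif hfg htr v δ hδ hδ0 (ht' v) (ht v), mul_add]
  rw [finsum_congr h2, finsum_add_distrib (finite_support_mul (finite_support hfg htr c))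
    (finite_support_mul (finite_support_der hfg htr δ hδ hδ0 t ht)), prod_formula hfg htr c,
    zero_add]

end

end Pool.Agent.H4FF
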