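import Mathlib

/-!
Minimal relations reaching out of a set of coordinates.
-/

namespace Pool.Agent.H4FF

universe v

section

variable {K : Type v} [Field K] [Algebra ℚ K] {α : Type*} [Fintype α] [DecidableEq α]

theorem exists_ear (z : α → K) (hz : ∑ i, z i = 0)
    (hsub : ∀ T : Finset α, T.Nonempty → T ≠ Finset.univ → ∑ i ∈ T, z i ≠ 0)
    (S : Finset α) (hS : S.Nonempty) (hS' : S ≠ Finset.univ) :
    ∃ (I : Finset α) (lam mu : α → K), I.Nonempty ∧ Disjoint S I ∧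
      (∀ i, IsAlgebraic ℚ (lam i)) ∧ (∀ i, IsAlgebraic ℚ (mu i)) ∧ (∀ i ∈ I, lam i ≠ 0) ∧
      ∑ i ∈ I, lam i * z i + ∑ j ∈ S, mu j * z j = 0 ∧ ∑ j ∈ S, mu j * z j ≠ 0 ∧
      (∀ c : α → K, (∀ i, IsAlgebraic ℚ (c i)) → ∑ i ∈ I, c i * z i = 0 → ∀ i ∈ I, c i = 0) := by
  classical
  let Q : ℕ → Prop := fun m => ∃ (I : Finset α) (lam mu : α → K), I.card = m ∧ Disjoint S I ∧
      (∀ i, IsAlgebraic ℚ (lam i)) ∧ (∀ i, IsAlgebraic ℚ (mu i)) ∧
      ∑ i ∈ I, lam i * z i + ∑ j ∈ S, mu j * z j = 0 ∧ ∑ j ∈ S, mu j * z j ≠ 0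
  have hQ : ∃ m, Q m := by
    refine ⟨_, Sᶜ, fun _ => 1, fun _ => 1, rfl, disjoint_compl_right, fun _ => isAlgebraic_one,
      fun _ => isAlgebraic_one, ?_, ?_⟩
    · simp only [one_mul]
      rw [add_comm, Finset.sum_add_sum_compl, hz]
    · simp only [one_mul]
      exact hsub S hS hS'
  obtain ⟨I, lam, mu, hcard, hdis, hlam, hmu, hsum, hne⟩ := Nat.find_spec hQ
  have hmin := fun m hm => Nat.find_min hQ (m := m) hm
  -- removing an element from the support contradicts minimality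
  have hrem : ∀ i ∈ I, ∀ lam' : α → K, (∀ i, IsAlgebraic ℚ (lam' i)) →
      ∑ i ∈ I, lam' i * z i + ∑ j ∈ S, mu j * z j = 0 → lam' i ≠ 0 := by
    intro i hi lam' hlam' hsum' h0
    refine hmin (I.erase i).card ?_ ⟨I.erase i, lam', mu, rfl, ?_, hlam', hmu, ?_, hne⟩
    · rw [← hcard]
      exact Finset.card_erase_lt_of_mem hi
    · exact hdis.mono_right (Finset.erase_subset _ _)
    · rw [← hsum', ← Finset.add_sum_erase I _ hi, h0, zero_mul, zero_add]
  refine ⟨I, lam, mu, ?_, hdis, hlam, hmu, fun i hi => hrem i hi lam hlam hsum, hsum, hne, ?_⟩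
  · rw [Finset.nonempty_iff_ne_empty]
    rintro rfl
    rw [Finset.sum_empty, zero_add] at hsum
    exact hne hsum
  · intro c hc hc0 i hi
    by_contra hci
    refine hrem i hi (fun j => lam j - lam i * (c i)⁻¹ * c j) ?_ ?_ ?_
    · intro j
      exact (hlam j).sub (((hlam i).mul (hc i).inv).mul (hc j))
    · rw [← hsum]
      congr 1
      simp only [sub_mul, Finset.sum_sub_distrib, mul_assoc, ← Finset.mul_sum, hc0, mul_zero,
        sub_zero]
    · field_simp
      ring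

end

end Pool.Agent.H4FF
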