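import Pool.Agent.H4FF.RankSum
import Pool.Agent.H4FF.Ear

/-!
The local inequalities for points without vanishing subsums.
-/

namespace Pool.Agent.H4FF

open IntermediateField Module Submodule
open scoped WithZero
open Pool.Agent.H4Abcd (nD nO lvl act spanW wle)

universe u v w

section

variable {k : Type u} {K : Type v} [Field k] [Field K] [Algebra k K] [CharZero k] [Algebra ℚ k]
  [Algebra ℚ K] [IsScalarTower ℚ k K]
variable (hfg : (⊤ : IntermediateField k K).FG) (htr : Algebra.trdeg k K = 1)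
variable {ι : Type w} {n : ℕ}
variable (E : Option ι → Derivation ℚ K K) (z : Fin n → K)
variable (hE0 : ∀ c : k, E none (algebraMap k K c) = 0) (hD0 : ∃ f, E none f ≠ 0)
variable (hEk : ∀ b (c : k), ∃ c' : k, E (some b) (algebraMap k K c) = algebraMap k K c')

variable (k) in
/-- The inequalities for a set of coordinates. -/
structure Inv (S : Finset (Fin n)) (Δ : K) (A : ℕ) : Prop where
  ne : Δ ≠ 0
  card : ∃ p, S.card = rho E z S + p ∧ 2 * A ≤ (p + 1) * p
  rad : ∀ (v : Place k K) t, v.lg t = -1 → ∀ a ∈ S,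
    v.lg (z a) + v.lg Δ ≤ ∑ i ∈ S, v.lg (z i) + A * (1 + v.lg (E none t))
  flat : ∀ (v : Place k K) t, v.lg t = -1 → (∀ i j, v.lg (z i) = v.lg (z j)) → ∀ a ∈ S,
    v.lg (z a) + v.lg Δ ≤ ∑ i ∈ S, v.lg (z i) + A * v.lg (E none t)

omit [CharZero k] [Algebra ℚ k] [IsScalarTower ℚ k K] in
theorem inv_singleton (i0 : Fin n) : Inv k E z {i0} 1 0 := by
  have h1 : ∀ v : Place k K, v.lg 1 = 0 := fun v => by
    rw [Place.lg, map_one, WithZero.log_one]
  refine ⟨one_ne_zero, ?_, ?_, ?_⟩
  · obtain ⟨p, hp⟩ := Nat.exists_eq_add_of_le (rho_le_card E z {i0})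
    exact ⟨p, hp, by simp⟩
  · intro v t _ a ha
    rw [Finset.mem_singleton] at ha
    subst ha
    rw [Finset.sum_singleton, h1]
    simp
  · intro v t _ _ a ha
    rw [Finset.mem_singleton] at ha
    subst ha
    rw [Finset.sum_singleton, h1]
    simp

omit [CharZero k] in
theorem lg_rat_mul (v : Place k K) {c x : K} (hc : IsAlgebraic ℚ c) (hc0 : c ≠ 0) (hx : x ≠ 0) :
    v.lg (c * x) = v.lg x := by
  rw [v.lg_mul hc0 hx, v.lg_of_isAlgebraic (hc.tower_top k), zero_add]

omit [CharZero k] in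
theorem val_rat_mul_le (v : Place k K) {c : K} (hc : IsAlgebraic ℚ c) (x : K) :
    v.val (c * x) ≤ v.val x := by
  rw [map_mul]
  have h : v.val c ≤ 1 := by
    by_cases h0 : c = 0
    · rw [h0, map_zero]; exact zero_le
    · rw [← v.lg_nonpos_iff h0, v.lg_of_isAlgebraic (hc.tower_top k)]
  exact (mul_le_mul' h le_rfl).trans_eq (one_mul _)

theorem sum_emb {M : Type*} [AddCommMonoid M] {n : ℕ} (I : Finset (Fin n)) (f : Fin n → M) :
    ∑ j, f (I.orderEmbOfFin rfl j) = ∑ i ∈ I, f i := by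
  have h1 : I = Finset.univ.map (I.orderEmbOfFin rfl).toEmbedding := by
    ext i
    rw [Finset.mem_map]
    have := Finset.range_orderEmbOfFin I rfl
    constructor
    · intro hi
      have h2 : i ∈ Set.range (I.orderEmbOfFin rfl) := by rw [this]; exact hi
      obtain ⟨j, hj⟩ := h2
      exact ⟨j, Finset.mem_univ _, hj⟩
    · rintro ⟨j, -, rfl⟩
      exact Finset.orderEmbOfFin_mem I rfl j
  conv_rhs => rw [h1]
  rw [Finset.sum_map]
  rfl

omit [CharZero k] in
theorem exists_le (v : Place k K) (S : Finset (Fin n)) (mu : Fin n → K)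
    (hmu : ∀ i, IsAlgebraic ℚ (mu i)) (hs : ∑ j ∈ S, mu j * z j ≠ 0) :
    ∃ b ∈ S, v.lg (∑ j ∈ S, mu j * z j) ≤ v.lg (z b) := by
  by_contra h
  push Not at h
  have h1 : v.val (∑ j ∈ S, mu j * z j) < v.val (∑ j ∈ S, mu j * z j) := by
    apply v.val.map_sum_lt (v.val_ne_zero hs)
    intro b hb
    refine (val_rat_mul_le v (hmu b) (z b)).trans_lt ?_
    by_cases h0 : z b = 0
    · rw [h0, map_zero]
      exact zero_lt_iff.2 (v.val_ne_zero hs)
    · have := h b hb
      rwa [← not_le, v.lg_le_lg hs h0, not_le] at this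
  exact lt_irrefl _ h1

include hfg htr hE0 hD0 hEk in
theorem inv_step (halg : ∀ f : K, (∀ l, E l f = 0) → IsAlgebraic ℚ f)
    (hz0 : ∀ i, z i ≠ 0) (hz : ∑ i, z i = 0)
    (hsub : ∀ T : Finset (Fin n), T.Nonempty → T ≠ Finset.univ → ∑ i ∈ T, z i ≠ 0)
    (S : Finset (Fin n)) (hS : S.Nonempty) (hS' : S ≠ Finset.univ) (Δ : K) (A : ℕ)
    (hinv : Inv k E z S Δ A) :
    ∃ (S' : Finset (Fin n)) (Δ' : K) (A' : ℕ), S ⊂ S' ∧ Inv k E z S' Δ' A' := by
  classical
  obtain ⟨I, lam, mu, hI, hdis, hlam, hmu, hl0, hsum, hs, hind⟩ := exists_ear z hz hsub S hS hS'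
  obtain ⟨e, hedef⟩ : ∃ e : Fin I.card → Fin n, e = fun j => I.orderEmbOfFin rfl j := ⟨_, rfl⟩
  have he : ∀ i, i ∈ I ↔ ∃ j, e j = i := by
    intro i
    have := Finset.range_orderEmbOfFin I rfl
    constructor
    · intro hi
      have h1 : i ∈ Set.range (I.orderEmbOfFin rfl) := by rw [this]; exact hi
      rw [hedef]
      exact h1
    · rintro ⟨j, rfl⟩
      rw [hedef]
      exact Finset.orderEmbOfFin_mem I rfl j
  have heI : ∀ j, e j ∈ I := fun j => (he _).2 ⟨j, rfl⟩
  have hinj : Function.Injective e := by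
    rw [hedef]
    exact (I.orderEmbOfFin rfl).injective
  have hsumK : ∀ f : Fin n → K, ∑ j, f (e j) = ∑ i ∈ I, f i := by
    rw [hedef]
    exact sum_emb I
  have hsumZ : ∀ f : Fin n → ℤ, ∑ j, f (e j) = ∑ i ∈ I, f i := by
    rw [hedef]
    exact sum_emb I
  set y : Fin (I.card + 1) → K := blockVec S e lam mu z with hy
  have hy0 : y 0 = ∑ j ∈ S, mu j * z j := rfl
  have hys : ∀ j : Fin I.card, y j.succ = lam (e j) * z (e j) := fun j => rfl
  have hysum : ∑ i, y i = 0 := by
    rw [Fin.sum_univ_succ, hy0, ← hsum, add_comm]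
    congr 1
    exact hsumK fun i => lam i * z i
  have hyne : ∀ i, y i ≠ 0 := by
    intro i
    refine Fin.cases ?_ (fun j => ?_) i
    · rw [hy0]; exact hs
    · rw [hys]; exact mul_ne_zero (hl0 _ (heI j)) (hz0 _)
  have hyrel : ∀ c : Fin (I.card + 1) → K, (∀ i, IsAlgebraic ℚ (c i)) → ∑ i, c i * y i = 0 →
      ∀ i j, c i = c j := by
    intro c hc hc0
    have h1 : ∑ j : Fin I.card, (c j.succ - c 0) * (lam (e j) * z (e j)) = 0 := by
      have h2 : ∑ i, (c i - c 0) * y i = 0 := by
        simp only [sub_mul, Finset.sum_sub_distrib, ← Finset.mul_sum, hysum, hc0, mul_zero,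
          sub_zero]
      rw [Fin.sum_univ_succ, sub_self, zero_mul, zero_add] at h2
      exact h2
    set c' : Fin n → K := Function.extend e (fun j => (c j.succ - c 0) * lam (e j)) 0 with hc'
    have h3 : ∀ j, c' (e j) = (c j.succ - c 0) * lam (e j) := fun j => hinj.extend_apply _ _ j
    have h4 : ∀ i, IsAlgebraic ℚ (c' i) := by
      intro i
      by_cases hi : ∃ j, e j = i
      · obtain ⟨j, rfl⟩ := hi
        rw [h3]
        exact ((hc _).sub (hc _)).mul (hlam _)
      · rw [hc', Function.extend_apply' _ _ _ hi]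
        exact isAlgebraic_zero
    have h5 := hind c' h4 (by
      rw [← hsumK fun i => c' i * z i, ← h1]
      refine Finset.sum_congr rfl fun j _ => ?_
      rw [h3, mul_assoc])
    have h6 : ∀ j : Fin I.card, c j.succ = c 0 := by
      intro j
      have h7 := h5 (e j) (heI j)
      rw [h3] at h7
      exact sub_eq_zero.1 ((mul_eq_zero.1 h7).resolve_right (hl0 _ (heI j)))
    have h7 : ∀ i, c i = c 0 := fun i => Fin.cases rfl h6 i
    intro i j
    rw [h7, h7 j]
  obtain ⟨w, q, hgood, hN, hA⟩ := exists_good E y hysum (hyne 0) halg hyrel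
  have hrho := rho_union E z S I e lam mu hlam hmu he hl0 hs
  rw [← hy] at hrho
  obtain ⟨p, hp, hpA⟩ := hinv.card
  have hcard : (S ∪ I).card = S.card + I.card := Finset.card_union_of_disjoint hdis
  have hylg : ∀ (v : Place k K) (j : Fin I.card), v.lg (y j.succ) = v.lg (z (e j)) := by
    intro v j
    rw [hys]
    exact lg_rat_mul v (hlam _) (hl0 _ (heI j)) (hz0 _)
  have hyl : ∀ v : Place k K, ∑ i, v.lg (y i) = v.lg (y 0) + ∑ i ∈ I, v.lg (z i) := by
    intro v
    rw [Fin.sum_univ_succ]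
    congr 1
    rw [← hsumZ fun i => v.lg (z i)]
    exact Finset.sum_congr rfl fun j _ => hylg v j
  have hDne := Delta_ne_zero E y w hysum hgood
  refine ⟨S ∪ I, Δ * Delta E y w, A + ∑ j, nD (w j), ?_, ?_, ?_, ?_, ?_⟩
  · refine Finset.ssubset_iff_subset_ne.2 ⟨Finset.subset_union_left, ?_⟩
    intro h
    have h1 : I.card = 0 := by rw [← h] at hcard; omega
    exact hI.card_pos.ne' h1
  · exact mul_ne_zero hinv.ne hDne
  · obtain ⟨p', hp'⟩ := Nat.exists_eq_add_of_le (rho_le_card E z (S ∪ I))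
    refine ⟨p', hp', ?_⟩
    have h1 : p + q + 1 ≤ p' := by omega
    obtain ⟨d, rfl⟩ := Nat.exists_eq_add_of_le h1
    nlinarith [Nat.zero_le (p * q), Nat.zero_le (p * d), Nat.zero_le (q * d), Nat.zero_le (d * d)]
  · intro v t ht a ha
    rw [Finset.sum_union hdis, v.lg_mul hinv.ne hDne]
    push_cast
    rw [Finset.mem_union] at ha
    rcases ha with ha | ha
    · have h1 := hinv.rad v t ht a ha
      have h2 := local_rad hfg htr E y w hE0 hD0 hEk hysum hyne hgood v ht 0
      rw [hyl] at h2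
      push_cast at h2
      linarith
    · obtain ⟨j, rfl⟩ := (he a).1 ha
      obtain ⟨b, hb, hb'⟩ := exists_le z v S mu hmu hs
      have h1 := hinv.rad v t ht b hb
      have h2 := local_rad hfg htr E y w hE0 hD0 hEk hysum hyne hgood v ht j.succ
      rw [hyl, hylg, hy0] at h2
      push_cast at h2
      linarith
  · intro v t ht hall a ha
    rw [Finset.sum_union hdis, v.lg_mul hinv.ne hDne]
    push_cast
    obtain ⟨b, hb⟩ := hS
    have h1 := hinv.flat v t ht hall b hb
    have hval : ∀ i, v.val (z i) = v.val (z a) := fun i => by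
      rw [v.val_eq_exp (hz0 i), v.val_eq_exp (hz0 a), hall i a]
    have h2 := local_flat hfg htr E y w hE0 hD0 hEk hysum hgood v (hz0 a) (fun i => by
      refine Fin.cases ?_ (fun j => ?_) i
      · rw [hy0]
        apply v.val.map_sum_le
        intro j _
        exact (val_rat_mul_le v (hmu j) (z j)).trans_eq (hval j)
      · rw [hys]
        exact (val_rat_mul_le v (hlam _) _).trans_eq (hval _)) ht
    have h3 : ∑ i ∈ I, v.lg (z i) = I.card * v.lg (z a) := by
      rw [Finset.sum_congr rfl fun i _ => hall i a, Finset.sum_const, nsmul_eq_mul]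
    rw [h3]
    have h4 := hall b a
    push_cast at h2
    linarith

end

end Pool.Agent.H4FF
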