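import Mathlib

/-!
Places of a field over a base field; the height and the number of bad places of a point.
-/

namespace Pool.Agent.H4FF

open Module
open scoped WithZero

section

/-- A place of `K` over `k`: a discrete valuation of `K`, written multiplicatively, with value group
exactly `ℤ`, which is trivial on `k`. -/
@[ext]
structure Place (k K : Type*) [Field k] [Field K] [Algebra k K] where
  /-- the valuation -/
  val : Valuation K ℤᵐ⁰
  surj : Function.Surjective val
  triv : ∀ c : k, c ≠ 0 → val (algebraMap k K c) = 1

variable {k K : Type*} [Field k] [Field K] [Algebra k K] (v : Place k K)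

namespace Place

theorem triv_le (c : k) : v.val (algebraMap k K c) ≤ 1 := by
  by_cases h : c = 0
  · rw [h, map_zero, map_zero]; exact zero_le
  · rw [v.triv c h]

/-- The valuation ring, as a subspace over the base field. -/
def int : Submodule k K where
  carrier := {x | v.val x ≤ 1}
  add_mem' := fun {a b} ha hb => (v.val.map_add a b).trans (max_le ha hb)
  zero_mem' := by simp
  smul_mem' := fun c x hx => by
    rw [Set.mem_ofPred_eq, Algebra.smul_def, map_mul]
    exact mul_le_one' (v.triv_le c) hx

theorem mem_int {x : K} : x ∈ v.int ↔ v.val x ≤ 1 := Iff.rfl

/-- The maximal ideal of the valuation ring, as a subspace of it over the base field. -/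
def mx : Submodule k v.int where
  carrier := {x | v.val (x : K) < 1}
  add_mem' := fun {a b} ha hb => (v.val.map_add a b).trans_lt (max_lt ha hb)
  zero_mem' := by simp
  smul_mem' := fun c x hx => by
    rw [Set.mem_ofPred_eq, Submodule.coe_smul, Algebra.smul_def, map_mul]
    exact mul_lt_one_of_nonneg_of_lt_one_right (v.triv_le c) zero_le hx

theorem mem_mx {x : v.int} : x ∈ v.mx ↔ v.val (x : K) < 1 := Iff.rfl

/-- The degree of a place: the degree of the residue field over the base field. -/
noncomputable def deg : ℕ := finrank k (v.int ⧸ v.mx)

/-- The negative of the order of `x` at `v`. -/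
def lg (x : K) : ℤ := WithZero.log (v.val x)

end Place

variable (k)

/-- The height of the point with coordinates `z`: the sum over the places `v` of
`deg v * max (-ord_v (z i))`. -/
noncomputable def height {n : ℕ} (z : Fin n → K) : ℤ :=
  ∑ᶠ v : Place k K, (v.deg : ℤ) * ⨆ i, v.lg (z i)

open Classical in
/-- The number of places, counted with their degrees, at which the orders of the `z i` are not all
equal. -/
noncomputable def rad {n : ℕ} (z : Fin n → K) : ℤ :=
  ∑ᶠ v : Place k K, if ∀ i j, v.lg (z i) = v.lg (z j) then 0 else (v.deg : ℤ)

end

end Pool.Agent.H4FF
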