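import Pool.Agent.H4FF.Prod

/-!
Derivations and places.
-/

namespace Pool.Agent.H4FF

open IntermediateField Module Polynomial
open scoped WithZero IntermediateField.algebraAdjoinAdjoin

universe u v

section

variable {k : Type u} {K : Type v} [Field k] [Field K] [Algebra k K]

/-- The residue field is algebraic. -/
theorem exists_poly_lt (htr : Algebra.trdeg k K = 1) (v : Place k K) {f : K}
    (hf : v.val f ≤ 1) : ∃ p : k[X], p ≠ 0 ∧ v.val (aeval f p) < 1 := by
  by_cases hfa : IsAlgebraic k f
  · obtain ⟨p, hp, hpf⟩ := hfa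
    exact ⟨p, hp, by rw [hpf, map_zero]; exact zero_lt_one⟩
  · obtain ⟨t, ht0, ht⟩ := v.exists_unif
    have htlt : v.val t < 1 := by
      rw [← v.lg_neg_iff ht0, ht]; norm_num
    have hA : ∀ a : Algebra.adjoin k {f}, v.val (a : K) ≤ 1 := by
      rintro ⟨a, ha⟩
      change v.val a ≤ 1
      induction ha using Algebra.adjoin_induction with
      | mem x hx =>
        rw [Set.mem_singleton_iff] at hx
        rw [hx]; exact hf
      | algebraMap c => exact v.triv_le c
      | add x x' _ _ h1 h2 => exact (v.val.map_add _ _).trans (max_le h1 h2)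
      | mul x x' _ _ h1 h2 => rw [map_mul]; exact mul_le_one' h1 h2
    have h1 := isAlgebraic_adjoin htr hfa
    have h2 : IsAlgebraic (Algebra.adjoin k {f}) t :=
      (IsFractionRing.isAlgebraic_iff (Algebra.adjoin k {f}) k⟮f⟯ K).2 (h1.isAlgebraic t)
    have h3 : ∃ n, ∃ P : (Algebra.adjoin k {f})[X], P ≠ 0 ∧ aeval t P = 0 ∧ P.natDegree = n := by
      obtain ⟨P, hP, hP2⟩ := h2
      exact ⟨_, P, hP, hP2, rfl⟩
    classical
    obtain ⟨P, hP, hPt, hPn⟩ := Nat.find_spec h3
    have hmin := fun m hm => Nat.find_min h3 (m := m) hm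
    have h4 : P = X * P.divX + C (P.coeff 0) := P.X_mul_divX_add.symm
    have h5 : P.coeff 0 ≠ 0 := by
      intro h0
      rw [h0, C_0, add_zero] at h4
      have h6 : P.divX ≠ 0 := by
        intro h7
        rw [h7, mul_zero] at h4
        exact hP h4
      refine hmin P.divX.natDegree ?_ ⟨P.divX, h6, ?_, rfl⟩
      · rw [← hPn]
        conv_rhs => rw [h4]
        rw [natDegree_X_mul h6]
        exact Nat.lt_succ_self _
      · rw [h4, map_mul, aeval_X] at hPt
        exact (mul_eq_zero.1 hPt).resolve_left ht0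
    have h6 : ((P.coeff 0 : Algebra.adjoin k {f}) : K) = -(t * aeval t P.divX) := by
      rw [h4, map_add, map_mul, aeval_X, aeval_C] at hPt
      rw [eq_neg_iff_add_eq_zero, add_comm]
      exact hPt
    have h7 : v.val (aeval t P.divX) ≤ 1 := by
      rw [aeval_eq_sum_range]
      apply v.val.map_sum_le
      intro i _
      rw [Algebra.smul_def, map_mul, map_pow]
      exact mul_le_one' (hA _) (pow_le_one' htlt.le _)
    have h8 : v.val ((P.coeff 0 : Algebra.adjoin k {f}) : K) < 1 := by
      rw [h6, Valuation.map_neg, map_mul]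
      exact mul_lt_one_of_lt_of_le htlt h7
    have key : ∀ x : Algebra.adjoin k {f}, ∃ c : k[X], aeval f c = (x : K) := by
      rintro ⟨x, hx⟩
      rw [Algebra.adjoin_singleton_eq_range_aeval] at hx
      exact hx
    obtain ⟨c, hc⟩ := key (P.coeff 0)
    refine ⟨c, ?_, by rw [hc]; exact h8⟩
    rintro rfl
    rw [map_zero] at hc
    exact h5 (Subtype.ext hc.symm)

variable [CharZero k]

/-- A polynomial that vanishes at the residue of `f`, with simple zero. -/
theorem exists_poly_simple (htr : Algebra.trdeg k K = 1) (v : Place k K) {f : K}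
    (hf : v.val f ≤ 1) :
    ∃ q : k[X], v.val (aeval f q) < 1 ∧ v.val (aeval f (derivative q)) = 1 := by
  classical
  have h3 : ∃ n, ∃ p : k[X], p ≠ 0 ∧ v.val (aeval f p) < 1 ∧ p.natDegree = n := by
    obtain ⟨p, hp, hp2⟩ := exists_poly_lt htr v hf
    exact ⟨_, p, hp, hp2, rfl⟩
  obtain ⟨q, hq, hq1, hqn⟩ := Nat.find_spec h3
  have hmin := fun m hm => Nat.find_min h3 (m := m) hm
  have hle : ∀ p : k[X], v.val (aeval f p) ≤ 1 := by
    intro p
    rw [aeval_eq_sum_range]
    apply v.val.map_sum_le
    intro i _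
    rw [Algebra.smul_def, map_mul, map_pow]
    exact mul_le_one' (v.triv_le _) (pow_le_one' hf _)
  refine ⟨q, hq1, le_antisymm (hle _) ?_⟩
  have hdeg : q.natDegree ≠ 0 := by
    intro h0
    rw [natDegree_eq_zero] at h0
    obtain ⟨c, rfl⟩ := h0
    rw [aeval_C, v.triv c (by rintro rfl; exact hq (by simp))] at hq1
    exact lt_irrefl _ hq1
  by_contra hlt
  rw [not_le] at hlt
  refine hmin (derivative q).natDegree ?_ ⟨derivative q, ?_, hlt, rfl⟩
  · rw [← hqn]
    exact natDegree_derivative_lt hdeg
  · intro h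
    exact hdeg (derivative_eq_zero.1 h)

variable {R : Type*} [CommRing R] [Algebra R K] (δ : Derivation R K K)

omit [CharZero k] in
/-- The derivative of `q(f)`. -/
theorem der_aeval (v : Place k K) (N : ℤᵐ⁰) (hN : ∀ c : k, v.val (δ (algebraMap k K c)) ≤ N)
    {f : K} (hf : v.val f ≤ 1) (q : k[X]) :
    v.val (δ (aeval f q) - aeval f (derivative q) * δ f) ≤ N := by
  induction q using Polynomial.induction_on' with
  | add p q hp hq =>
    have h1 : δ (aeval f (p + q)) - aeval f (derivative (p + q)) * δ f =
        (δ (aeval f p) - aeval f (derivative p) * δ f) +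
        (δ (aeval f q) - aeval f (derivative q) * δ f) := by
      rw [map_add, map_add, map_add, map_add]
      ring
    rw [h1]
    exact (v.val.map_add _ _).trans (max_le hp hq)
  | monomial n a =>
    have h1 : δ (aeval f (monomial n a)) - aeval f (derivative (monomial n a)) * δ f =
        δ (algebraMap k K a) * f ^ n := by
      rw [aeval_monomial, derivative_monomial, aeval_monomial, Derivation.leibniz,
        Derivation.leibniz_pow]
      simp only [smul_eq_mul, nsmul_eq_mul, map_mul, map_natCast]
      ring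
    rw [h1, map_mul, map_pow]
    calc v.val (δ (algebraMap k K a)) * v.val f ^ n ≤ N * 1 :=
          mul_le_mul' (hN a) (pow_le_one' hf _)
      _ = N := mul_one N

/-- A derivation of bounded drop has a sharp bound. -/
theorem sharp (htr : Algebra.trdeg k K = 1) (v : Place k K) (M N : ℤᵐ⁰)
    (hM : ∀ f, v.val f ≤ 1 → v.val (δ f) ≤ M)
    (hN : ∀ c : k, v.val (δ (algebraMap k K c)) ≤ N) {t : K} (ht : v.lg t = -1)
    (htN : v.val (δ t) ≤ N) {f : K} (hf : v.val f ≤ 1) : v.val (δ f) ≤ N := by
  have ht0 : t ≠ 0 := by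
    rintro rfl
    rw [Place.lg, map_zero, WithZero.log_zero] at ht
    norm_num at ht
  have hstep : ∀ n : ℕ, ∀ f, v.val f ≤ 1 → v.val (δ f) ≤ max N (M * v.val t ^ n) := by
    intro n
    induction n with
    | zero =>
      intro f hf
      rw [pow_zero, mul_one]
      exact (hM f hf).trans (le_max_right _ _)
    | succ n ih =>
      intro f hf
      obtain ⟨q, hq1, hq2⟩ := exists_poly_simple htr v hf
      set h := aeval f q / t with hh
      have hh1 : aeval f q = t * h := by rw [hh]; field_simp
      have hh2 : v.val h ≤ 1 := by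
        by_cases hz : aeval f q = 0
        · rw [hh, hz, zero_div, map_zero]; exact zero_le
        · rw [← v.lg_neg_iff hz, hh1] at hq1
          have hh0 : h ≠ 0 := by
            intro h0
            rw [h0, mul_zero] at hh1
            exact hz hh1
          rw [v.lg_mul ht0 hh0, ht] at hq1
          rw [← v.lg_nonpos_iff hh0]
          omega
      have h1 := der_aeval δ v N hN hf q
      have h2 : v.val (δ (aeval f q)) ≤ max N (M * v.val t ^ (n + 1)) := by
        rw [hh1, Derivation.leibniz, smul_eq_mul, smul_eq_mul]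
        refine (v.val.map_add _ _).trans (max_le ?_ ?_)
        · rw [map_mul]
          have htle : v.val t ≤ 1 := by
            rw [← v.lg_nonpos_iff ht0, ht]; norm_num
          calc v.val t * v.val (δ h) ≤ v.val t * max N (M * v.val t ^ n) :=
                mul_le_mul' le_rfl (ih h hh2)
            _ = max (v.val t * N) (v.val t * (M * v.val t ^ n)) := mul_max _ _ _
            _ ≤ max N (M * v.val t ^ (n + 1)) := by
                apply max_le_max
                · exact (mul_le_mul' htle le_rfl).trans_eq (one_mul N)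
                · rw [pow_succ, mul_left_comm, mul_comm (v.val t)]
        · rw [map_mul]
          refine le_trans ?_ (le_max_left _ _)
          calc v.val h * v.val (δ t) ≤ 1 * N := mul_le_mul' hh2 htN
            _ = N := one_mul N
      have h3 : v.val (aeval f (derivative q) * δ f) ≤ max N (M * v.val t ^ (n + 1)) := by
        have h4 : aeval f (derivative q) * δ f = δ (aeval f q) -
            (δ (aeval f q) - aeval f (derivative q) * δ f) := by ring
        rw [h4]
        exact (v.val.map_sub _ _).trans (max_le h2 (h1.trans (le_max_left _ _)))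
      rw [map_mul, hq2, one_mul] at h3
      exact h3
  by_contra hlt
  rw [not_le] at hlt
  have h1 : ∀ n : ℕ, v.val (δ f) ≤ M * v.val t ^ n := by
    intro n
    rcases le_max_iff.1 (hstep n f hf) with h | h
    · exact absurd h (not_le.2 hlt)
    · exact h
  have h2 : v.val (δ f) ≠ 0 := ne_of_gt (lt_of_le_of_lt zero_le hlt)
  have hM0 : M ≠ 0 := by
    rintro rfl
    have := h1 0
    rw [zero_mul] at this
    exact h2 (le_antisymm this zero_le)
  have h3 := h1 (WithZero.log M - WithZero.log (v.val (δ f)) + 1).toNat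
  have h4 := (WithZero.log_le_log h2
    (mul_ne_zero hM0 (pow_ne_zero _ (v.val_ne_zero ht0)))).2 h3
  rw [WithZero.log_mul hM0 (pow_ne_zero _ (v.val_ne_zero ht0)), WithZero.log_pow] at h4
  change _ ≤ WithZero.log M + _ • v.lg t at h4
  rw [ht, nsmul_eq_mul] at h4
  have h5 := Int.self_le_toNat (WithZero.log M - WithZero.log (v.val (δ f)) + 1)
  linarith

omit [CharZero k] in
/-- Bounded drop for elements which are quotients of elements of an algebra. -/
theorem drop_bound (v : Place k K) (M : ℤᵐ⁰) (hM : ∀ c : k, v.val (δ (algebraMap k K c)) ≤ M)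
    (G : Set K) (hG1 : ∀ g ∈ G, v.val g ≤ 1) (hG2 : ∀ g ∈ G, v.val (δ g) ≤ M) {f : K}
    (hf : v.val f ≤ 1)
    (h : ∃ a ∈ Algebra.adjoin k G, ∃ b ∈ Algebra.adjoin k G, v.val b = 1 ∧ f * b = a) :
    v.val (δ f) ≤ M := by
  have hA : ∀ a ∈ Algebra.adjoin k G, v.val a ≤ 1 ∧ v.val (δ a) ≤ M := by
    intro a ha
    induction ha using Algebra.adjoin_induction with
    | mem x hx => exact ⟨hG1 x hx, hG2 x hx⟩
    | algebraMap c => exact ⟨v.triv_le c, hM c⟩
    | add x x' _ _ h1 h2 =>
      rw [δ.map_add]
      exact ⟨(v.val.map_add _ _).trans (max_le h1.1 h2.1),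
        (v.val.map_add _ _).trans (max_le h1.2 h2.2)⟩
    | mul x x' _ _ h1 h2 =>
      rw [Derivation.leibniz, smul_eq_mul, smul_eq_mul]
      refine ⟨by rw [map_mul]; exact mul_le_one' h1.1 h2.1,
        (v.val.map_add _ _).trans (max_le ?_ ?_)⟩
      · rw [map_mul]
        exact (mul_le_mul' h1.1 h2.2).trans_eq (one_mul M)
      · rw [map_mul]
        exact (mul_le_mul' h2.1 h1.2).trans_eq (one_mul M)
  obtain ⟨a, ha, b, hb, hb1, hab⟩ := h
  have h1 := congrArg δ hab
  rw [Derivation.leibniz, smul_eq_mul, smul_eq_mul] at h1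
  have h2 : b * δ f = δ a - f * δ b := by rw [← h1]; ring
  have h3 : v.val (δ f) = v.val (b * δ f) := by rw [map_mul, hb1, one_mul]
  rw [h3, h2]
  refine (v.val.map_sub _ _).trans (max_le (hA a ha).2 ?_)
  rw [map_mul]
  exact (mul_le_mul' hf (hA b hb).2).trans_eq (one_mul M)

end

section

variable {k : Type u} {K : Type v} [Field k] [Field K] [Algebra k K] [CharZero k]

/-- Generators of the integral closure of `k[y]`. -/
theorem exists_gens (y : K) [FiniteDimensional k⟮y⟯ K] :
    ∃ G : Finset K, ∀ v : Place k K, v.val y ≤ 1 → (∀ g ∈ G, v.val g ≤ 1) ∧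
      ∀ f, v.val f ≤ 1 → ∃ a ∈ Algebra.adjoin k (G : Set K),
        ∃ b ∈ Algebra.adjoin k (G : Set K), v.val b = 1 ∧ f * b = a := by
  classical
  have i1 := isPrincipalIdealRing_adjoin (k := k) y
  have i2 := finite_integralClosure (k := k) y
  have i3 := isDedekindDomain_integralClosure (k := k) y
  have i4 := isFractionRing_integralClosure (k := k) y
  obtain ⟨s, hs⟩ := i2.fg_top
  set G : Finset K := insert y (s.image Subtype.val) with hG
  have hB : ∀ b : integralClosure (Algebra.adjoin k {y}) K,
      (b : K) ∈ Algebra.adjoin k (G : Set K) := by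
    intro b
    have hb : b ∈ Submodule.span (Algebra.adjoin k {y})
      (s : Set (integralClosure (Algebra.adjoin k {y}) K)) := by
      rw [hs]; trivial
    induction hb using Submodule.span_induction with
    | mem x hx =>
      apply Algebra.subset_adjoin
      rw [hG, Finset.coe_insert, Finset.coe_image]
      exact Set.mem_insert_of_mem _ ⟨x, hx, rfl⟩
    | zero => exact zero_mem _
    | add x x' _ _ h1 h2 => exact add_mem h1 h2
    | smul c x _ h1 =>
      have h2 : (c : K) ∈ Algebra.adjoin k (G : Set K) := by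
        refine Algebra.adjoin_mono ?_ c.2
        rw [hG, Finset.coe_insert, Set.singleton_subset_iff]
        exact Set.mem_insert _ _
      exact mul_mem h2 h1
  refine ⟨G, fun v hv => ?_⟩
  have hB1 := le_one_of_mem y v hv
  refine ⟨?_, ?_⟩
  · intro g hg
    rw [hG, Finset.mem_insert, Finset.mem_image] at hg
    rcases hg with rfl | ⟨b, -, rfl⟩
    · exact hv
    · exact hB1 b
  · intro f hf
    obtain ⟨P, rfl⟩ := exists_ofPrime (B := integralClosure (Algebra.adjoin k {y}) K) v
      (fun b => hB1 b)
    obtain ⟨a, d, hd⟩ := P.exists_primeCompl_mul_eq_of_integer f hf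
    refine ⟨a, hB a, (d : integralClosure (Algebra.adjoin k {y}) K), hB _, ?_, hd⟩
    exact P.valuation_eq_one_iff_notMem.2 d.2

end

end Pool.Agent.H4FF
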