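import Pool.Agent.H4FF.Local
import Pool.Agent.H4Abcd.Kaehler

/-!
Derivations of a function field.
-/

namespace Pool.Agent.H4FF

open IntermediateField Module KaehlerDifferential

universe u v

section

variable (k : Type u) (K : Type v) [Field k] [Field K] [Algebra k K] [Algebra ℚ k] [Algebra ℚ K]
  [IsScalarTower ℚ k K]

theorem exists_letters (htr : Algebra.trdeg k K = 1) :
    ∃ (ι : Type u) (E : Option ι → Derivation ℚ K K),
      (∀ c : k, E none (algebraMap k K c) = 0) ∧ (∃ f, E none f ≠ 0) ∧
      (∀ b (c : k), ∃ c' : k, E (some b) (algebraMap k K c) = algebraMap k K c') ∧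
      (∀ η : Ω[K⁄ℚ], (∀ l, (E l).liftKaehlerDifferential η = 0) → η = 0) := by
  classical
  obtain ⟨s, hs⟩ := exists_isTranscendenceBasis' ℚ k
  obtain ⟨y, hy⟩ := exists_transcendental htr
  have hyb := isTranscendenceBasis_single htr hy
  obtain ⟨x, hx⟩ := hs
  have hxy := hx.sumElim_comp hyb
  obtain ⟨b, hb⟩ := H4Abcd.exists_basis_of_isTranscendenceBasis _ hxy
  obtain ⟨bk, hbk⟩ := H4Abcd.exists_basis_of_isTranscendenceBasis _ hx
  let d : Unit ⊕ s → Derivation ℚ K K := fun i => (b.coord i).compDer (D ℚ K)
  have hd : ∀ i j, d i (Sum.elim (fun _ => y) (algebraMap k K ∘ x) j) =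
      if j = i then 1 else 0 := by
    intro i j
    change b.coord i (D ℚ K _) = _
    rw [← hb j, Basis.coord_apply, Basis.repr_self, Finsupp.single_apply]
  have hlift : ∀ i, (d i).liftKaehlerDifferential = b.coord i := by
    intro i
    apply b.ext
    intro j
    rw [hb, Derivation.liftKaehlerDifferential_comp_D, hd, ← hb j, Basis.coord_apply,
      Basis.repr_self, Finsupp.single_apply]
  have hk : ∀ i (c : k), ∃ c' : k, d i (algebraMap k K c) = algebraMap k K c' ∧
      (i = Sum.inl () → c' = 0) := by
    intro i c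
    let δ : Derivation ℚ k K := (d i).compAlgebraMap k
    have h1 : d i (algebraMap k K c) = δ.liftKaehlerDifferential (D ℚ k c) := by
      rw [Derivation.liftKaehlerDifferential_comp_D]
      rfl
    rw [h1]
    have h2 : D ℚ k c ∈ Submodule.span k (Set.range bk) := by rw [bk.span_eq]; trivial
    generalize D ℚ k c = ω at h2 ⊢
    induction h2 using Submodule.span_induction with
    | mem x hx =>
      obtain ⟨j, rfl⟩ := hx
      rw [hbk, Derivation.liftKaehlerDifferential_comp_D]
      have h3 := hd i (Sum.inr j)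
      change δ (x j) = _ at h3
      rw [h3]
      refine ⟨if Sum.inr j = i then 1 else 0, ?_, ?_⟩
      · split_ifs <;> simp
      · rintro rfl
        simp
    | zero => exact ⟨0, by simp, fun _ => rfl⟩
    | add a b _ _ ha hb =>
      obtain ⟨a', ha, ha'⟩ := ha
      obtain ⟨b', hb, hb'⟩ := hb
      refine ⟨a' + b', by rw [map_add, map_add, ha, hb], fun h => ?_⟩
      rw [ha' h, hb' h, add_zero]
    | smul c a _ ha =>
      obtain ⟨a', ha, ha'⟩ := ha
      refine ⟨c * a', by rw [map_smul, ha, map_mul, Algebra.smul_def], fun h => ?_⟩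
      rw [ha' h, mul_zero]
  let f : Option s → Unit ⊕ s := fun o => o.elim (Sum.inl ()) Sum.inr
  refine ⟨s, fun o => d (f o), ?_, ⟨y, ?_⟩, ?_, ?_⟩
  · intro c
    obtain ⟨c', hc, hc'⟩ := hk (Sum.inl ()) c
    change d (Sum.inl ()) _ = 0
    rw [hc, hc' rfl, map_zero]
  · have := hd (Sum.inl ()) (Sum.inl ())
    change d (Sum.inl ()) y = _ at this
    change d (Sum.inl ()) y ≠ 0
    rw [this]
    simp
  · intro b c
    obtain ⟨c', hc, -⟩ := hk (Sum.inr b) c
    exact ⟨c', hc⟩
  · intro η hη
    rw [← b.forall_coord_eq_zero_iff]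
    intro i
    rw [← hlift i]
    rcases i with ⟨⟩ | i
    · exact hη none
    · exact hη (some i)

/-- There is a nonzero derivation over the base field. -/
theorem exists_derivation (htr : Algebra.trdeg k K = 1) :
    ∃ D : Derivation k K K, D ≠ 0 ∧ ∃ f, D f ≠ 0 := by
  obtain ⟨ι, E, hE0, ⟨f, hf⟩, -, -⟩ := exists_letters k K htr
  let D : Derivation k K K :=
    { toFun := E none
      map_add' := map_add (E none)
      map_smul' := fun c x => by
        rw [RingHom.id_apply, Algebra.smul_def, Algebra.smul_def, Derivation.leibniz, hE0,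
          smul_zero, add_zero, smul_eq_mul]
      map_one_eq_zero' := (E none).map_one_eq_zero
      leibniz' := (E none).leibniz }
  refine ⟨D, ?_, f, hf⟩
  intro h
  apply hf
  change D f = 0
  rw [h, Derivation.zero_apply]

end

end Pool.Agent.H4FF
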