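import Pool.Agent.H4FF.Canon
import Pool.Agent.H4FF.Letters
import Pool.Agent.H4Abcd.Main

/-!
The global inequality.
-/

namespace Pool.Agent.H4FF

open IntermediateField Module
open Pool.Agent.H4Abcd (nD lvl act spanW)

universe u v w

section

variable {k : Type u} {K : Type v} [Field k] [Field K] [Algebra k K] [CharZero k]
variable (hfg : (⊤ : IntermediateField k K).FG) (htr : Algebra.trdeg k K = 1)

include hfg htr in
theorem sum_eq_zero (x : K) (S : Finset (Place k K)) (hS : ∀ v : Place k K, v.lg x ≠ 0 → v ∈ S) :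
    ∑ v ∈ S, (v.deg : ℤ) * v.lg x = 0 := by
  rw [← prod_formula hfg htr x, finsum_eq_sum_of_support_subset _ (s := S)]
  intro v hv
  apply hS
  intro h
  apply hv
  change (v.deg : ℤ) * v.lg x = 0
  rw [h, mul_zero]

variable [Algebra ℚ K] {ι : Type w} {N : ℕ}
variable (E : Option ι → Derivation ℚ K K) (z : Fin (N + 1) → K) (w : Fin N → List (Option ι))
variable (hE0 : ∀ c : k, E none (algebraMap k K c) = 0) (hD0 : ∃ f, E none f ≠ 0)
variable (hEk : ∀ b (c : k), ∃ c' : k, E (some b) (algebraMap k K c) = algebraMap k K c')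

include hfg htr hE0 hD0 hEk in
theorem height_bound (hz : ∑ i, z i = 0) (hz0 : ∀ i, z i ≠ 0) (hw : Good E z w)
    (t : Place k K → K) (ht : ∀ v : Place k K, v.lg (t v) = -1) :
    height k z ≤ (∑ j, nD (w j) : ℕ) *
      (rad k z + ∑ᶠ v : Place k K, (v.deg : ℤ) * v.lg (E none (t v))) := by
  classical
  have hf1 : (⋃ i, {v : Place k K | v.lg (z i) ≠ 0}).Finite :=
    Set.finite_iUnion fun i => finite_support hfg htr (z i)
  have hf2 := finite_support hfg htr (k := k) (Delta E z w)
  have hf3 := finite_support_der hfg htr (E none) hE0 hD0 t ht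
  set S : Finset (Place k K) := hf1.toFinset ∪ (hf2.toFinset ∪ hf3.toFinset) with hS
  have hS1 : ∀ i (v : Place k K), v.lg (z i) ≠ 0 → v ∈ S := by
    intro i v hv
    rw [hS, Finset.mem_union, Set.Finite.mem_toFinset]
    exact Or.inl (Set.mem_iUnion.2 ⟨i, hv⟩)
  have hS2 : ∀ v : Place k K, v.lg (Delta E z w) ≠ 0 → v ∈ S := by
    intro v hv
    rw [hS, Finset.mem_union, Finset.mem_union]
    exact Or.inr (Or.inl (hf2.mem_toFinset.2 hv))
  have hS3 : ∀ v : Place k K, v.lg (E none (t v)) ≠ 0 → v ∈ S := by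
    intro v hv
    rw [hS, Finset.mem_union, Finset.mem_union]
    exact Or.inr (Or.inr (hf3.mem_toFinset.2 hv))
  have e1 : height k z = ∑ v ∈ S, (v.deg : ℤ) * ⨆ i, v.lg (z i) := by
    apply finsum_eq_sum_of_support_subset
    intro v hv
    by_contra hvS
    apply hv
    have h1 : ∀ i, v.lg (z i) = 0 := fun i => by
      by_contra h
      exact hvS (hS1 i v h)
    change (v.deg : ℤ) * ⨆ i, v.lg (z i) = 0
    simp only [h1, ciSup_const, mul_zero]
  have e2 : rad k z = ∑ v ∈ S, if ∀ i j, v.lg (z i) = v.lg (z j) then 0 else (v.deg : ℤ) := by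
    apply finsum_eq_sum_of_support_subset
    intro v hv
    by_contra hvS
    apply hv
    have h1 : ∀ i, v.lg (z i) = 0 := fun i => by
      by_contra h
      exact hvS (hS1 i v h)
    change (if ∀ i j, v.lg (z i) = v.lg (z j) then 0 else (v.deg : ℤ)) = 0
    rw [if_pos]
    intro i j
    rw [h1, h1]
  have e3 : ∑ᶠ v : Place k K, (v.deg : ℤ) * v.lg (E none (t v)) =
      ∑ v ∈ S, (v.deg : ℤ) * v.lg (E none (t v)) := by
    apply finsum_eq_sum_of_support_subset
    intro v hv
    by_contra hvS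
    apply hv
    have h1 : v.lg (E none (t v)) = 0 := by
      by_contra h
      exact hvS (hS3 v h)
    change (v.deg : ℤ) * v.lg (E none (t v)) = 0
    rw [h1, mul_zero]
  have e4 := sum_eq_zero hfg htr (Delta E z w) S hS2
  have e5 : ∑ v ∈ S, (v.deg : ℤ) * ∑ i, v.lg (z i) = 0 := by
    simp only [Finset.mul_sum]
    rw [Finset.sum_comm]
    exact Finset.sum_eq_zero fun i _ => sum_eq_zero hfg htr (z i) S (hS1 i)
  rw [e1, e2, e3]
  set A : ℤ := ((∑ j, nD (w j) : ℕ) : ℤ) with hA
  have hA0 : 0 ≤ A := Int.natCast_nonneg _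
  have key : ∀ v ∈ S, (v.deg : ℤ) * (⨆ i, v.lg (z i)) + (v.deg : ℤ) * v.lg (Delta E z w) ≤
      (v.deg : ℤ) * ∑ i, v.lg (z i) +
        A * ((if ∀ i j, v.lg (z i) = v.lg (z j) then 0 else (v.deg : ℤ)) +
          (v.deg : ℤ) * v.lg (E none (t v))) := by
    intro v _
    obtain ⟨l, hl⟩ := exists_eq_ciSup_of_finite (f := fun i => v.lg (z i))
    rw [← hl]
    have hdeg : (0 : ℤ) ≤ v.deg := Int.natCast_nonneg _
    split_ifs with hall
    · have h1 := local_nonrad hfg htr E z w hE0 hD0 hEk hz hz0 hw v (fun i j => by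
        rw [v.val_eq_exp (hz0 i), v.val_eq_exp (hz0 j), hall i j]) (ht v) l
      rw [← hA] at h1
      have h2 := mul_le_mul_of_nonneg_left h1 hdeg
      linarith
    · have h1 := local_rad hfg htr E z w hE0 hD0 hEk hz hz0 hw v (ht v) l
      rw [← hA] at h1
      have h2 := mul_le_mul_of_nonneg_left h1 hdeg
      linarith
  have h1 := Finset.sum_le_sum key
  rw [Finset.sum_add_distrib, Finset.sum_add_distrib, e4, e5, add_zero, zero_add,
    ← Finset.mul_sum, Finset.sum_add_distrib] at h1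
  exact h1

end

section

variable {k : Type u} {K : Type v} [Field k] [Field K] [Algebra k K] [CharZero k]
variable (hfg : (⊤ : IntermediateField k K).FG) (htr : Algebra.trdeg k K = 1)

include hfg htr in
/-- The height of a nonconstant point is positive. -/
theorem height_pos {N : ℕ} (z : Fin (N + 1) → K) (hz0 : ∀ i, z i ≠ 0) (i j : Fin (N + 1))
    (hij : Transcendental k (z i / z j)) : 0 < height k z := by
  classical
  set y := z i / z j with hy
  have hy0 : y ≠ 0 := div_ne_zero (hz0 i) (hz0 j)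
  have hy' : Transcendental k y⁻¹ := fun h => hij (by simpa using h.inv)
  have i2 := finiteDimensional_adjoin hfg htr hy'
  obtain ⟨T, hT1, hT2⟩ := zeros hy'
  have hT3 : ∀ v, v ∈ T ↔ 0 < v.lg y := by
    intro v
    rw [hT1, ← v.lg_neg_iff (inv_ne_zero hy0), v.lg_inv]
    constructor <;> intro h <;> linarith
  have hf1 : (⋃ i, {v : Place k K | v.lg (z i) ≠ 0}).Finite :=
    Set.finite_iUnion fun i => finite_support hfg htr (z i)
  set S : Finset (Place k K) := hf1.toFinset ∪ T with hS
  have hS1 : ∀ i (v : Place k K), v.lg (z i) ≠ 0 → v ∈ S := by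
    intro i v hv
    rw [hS, Finset.mem_union, Set.Finite.mem_toFinset]
    exact Or.inl (Set.mem_iUnion.2 ⟨i, hv⟩)
  have e1 : height k z = ∑ v ∈ S, (v.deg : ℤ) * ⨆ i, v.lg (z i) := by
    apply finsum_eq_sum_of_support_subset
    intro v hv
    by_contra hvS
    apply hv
    have h1 : ∀ i, v.lg (z i) = 0 := fun i => by
      by_contra h
      exact hvS (hS1 i v h)
    change (v.deg : ℤ) * ⨆ i, v.lg (z i) = 0
    simp only [h1, ciSup_const, mul_zero]
  have e2 := sum_eq_zero hfg htr (z j) S (hS1 j)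
  have hle : ∀ (v : Place k K) l, v.lg (z l) ≤ ⨆ i, v.lg (z i) := fun v l =>
    le_ciSup (f := fun i => v.lg (z i)) (Set.finite_range _).bddAbove l
  have h1 : ∑ v ∈ T, (v.deg : ℤ) * v.lg y ≤
      ∑ v ∈ S, (v.deg : ℤ) * ((⨆ i, v.lg (z i)) - v.lg (z j)) := by
    calc ∑ v ∈ T, (v.deg : ℤ) * v.lg y ≤
        ∑ v ∈ T, (v.deg : ℤ) * ((⨆ i, v.lg (z i)) - v.lg (z j)) := by
          refine Finset.sum_le_sum fun v _ => ?_
          refine mul_le_mul_of_nonneg_left ?_ (Int.natCast_nonneg _)
          rw [hy, div_eq_mul_inv, v.lg_mul (hz0 i) (inv_ne_zero (hz0 j)), v.lg_inv]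
          have := hle v i
          linarith
      _ ≤ _ := by
          refine Finset.sum_le_sum_of_subset_of_nonneg Finset.subset_union_right fun v _ _ => ?_
          refine mul_nonneg (Int.natCast_nonneg _) ?_
          have := hle v j
          linarith
  simp only [mul_sub, Finset.sum_sub_distrib, e2, sub_zero] at h1
  rw [← e1] at h1
  have h2 : ∑ v ∈ T, (v.deg : ℤ) * v.lg y = finrank k⟮y⁻¹⟯ K := by
    rw [← neg_inj, ← hT2, ← Finset.sum_neg_distrib]
    refine Finset.sum_congr rfl fun v _ => ?_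
    rw [v.lg_inv, mul_neg]
  have h3 : 0 < finrank k⟮y⁻¹⟯ K := finrank_pos
  rw [h2] at h1
  omega

end

section

variable {k : Type u} {K : Type v} [Field k] [Field K] [Algebra k K] [CharZero k] [CharZero K]
variable (hfg : (⊤ : IntermediateField k K).FG) (htr : Algebra.trdeg k K = 1)

include hfg htr in
/-- The main inequality. -/
theorem main : ∃ κ : ℤ,
    (∀ (D : Derivation k K K), D ≠ 0 → ∀ t : Place k K → K, (∀ v : Place k K, v.lg (t v) = -1) →
      ∑ᶠ v : Place k K, (v.deg : ℤ) * v.lg (D (t v)) = κ) ∧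
    ∀ (m r : ℕ) (z : Fin (m + r + 3) → K), (∀ i, z i ≠ 0) → ∑ i, z i = 0 →
      (∃ i j, Transcendental k (z i / z j)) →
      (0 < m → ∀ c : Fin (m + r + 3) → K, (∀ i, IsAlgebraic ℚ (c i)) →
        ∑ i, c i * z i = 0 → ∀ i j, c i = c j) →
      ∀ idx : Fin (r + 1) → Fin (m + r + 3),
        (AlgebraicIndependent ℚ fun j => z (idx j) / z (Fin.last (m + r + 2))) →
        2 * height k z ≤ (m + 1) * (m + 2) * (rad k z + κ) := by
  obtain ⟨ι, E, hE0, hD0, hEk, hE2⟩ := exists_letters k K htr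
  have hex : ∀ v : Place k K, ∃ t : K, v.lg t = -1 := fun v => by
    obtain ⟨t, -, ht⟩ := v.exists_unif
    exact ⟨t, ht⟩
  choose t0 ht0 using hex
  refine ⟨∑ᶠ v : Place k K, (v.deg : ℤ) * v.lg (E none (t0 v)), ?_, ?_⟩
  · intro D hD t ht
    refine canon_unique hfg htr (D.restrictScalars ℤ) ((E none).restrictScalars ℤ) ?_ ?_ hE0 hD0
      t t0 ht ht0
    · intro c
      exact D.map_algebraMap c
    · by_contra h
      push Not at h
      exact hD (Derivation.ext h)
  · intro m r z hz0 hz hnc hrel idx hind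
    have hrelK : ∀ c : Fin (m + r + 2 + 1) → K, (∀ i, IsAlgebraic ℚ (c i)) →
        ∑ i, c i * z i = 0 → ∀ i j, c i = c j := by
      intro c hc hsum
      rcases Nat.eq_zero_or_pos m with rfl | hm
      · exact H4Abcd.rel_of_max E hE2 r (by omega) z hz idx hind c hc hsum
      · exact hrel hm c hc hsum
    have halg : ∀ f : K, (∀ l, E l f = 0) → IsAlgebraic ℚ f :=
      H4Abcd.isAlgebraic_of_forall E hE2
    have hNrank := H4Abcd.finrank_univ E z hz halg hrelK
    obtain ⟨w, hw1, hw2, hw3⟩ := H4Abcd.exists_family E z hNrank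
    have hrank1 := H4Abcd.finrank_one E z (hz0 _) idx fun c hc =>
      H4Abcd.coeff_eq_zero_of_forall E hE2 _ hind c hc
    have hA := H4Abcd.sum_nD_le E z w hNrank hw1 hw2 hrank1
    have hgood : Good E z w := by
      refine ⟨hw1, ?_⟩
      intro j u hu
      refine Submodule.span_mono ?_ (hw2 u)
      rintro _ ⟨i, hi, rfl⟩
      refine ⟨i, ?_, rfl⟩
      by_contra hij
      have : lvl (w j) ≤ lvl (w i) := hw3 (not_lt.1 hij)
      exact absurd (lt_of_le_of_lt (this.trans hi) hu) (lt_irrefl _)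
    have hb := height_bound hfg htr E z w hE0 hD0 hEk hz hz0 hgood t0 ht0
    obtain ⟨i, j, hij⟩ := hnc
    have hpos := height_pos hfg htr z hz0 i j hij
    set κ := ∑ᶠ v : Place k K, (v.deg : ℤ) * v.lg (E none (t0 v)) with hκ
    set A := ∑ j, nD (w j) with hAdef
    have hR : 0 < rad k z + κ := by
      by_contra h
      rw [not_lt] at h
      have : (A : ℤ) * (rad k z + κ) ≤ 0 :=
        mul_nonpos_of_nonneg_of_nonpos (Int.natCast_nonneg _) h
      linarith
    have hA' : 2 * (A : ℤ) ≤ (m + 1) * (m + 2) := by exact_mod_cast hA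
    have h1 := mul_le_mul_of_nonneg_right hA' hR.le
    linarith

end

end Pool.Agent.H4FF
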