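import Pool.Agent.H4FF.Chain
import Pool.Agent.H4FF.Final

/-!
The global inequality for points without vanishing subsums.
-/

namespace Pool.Agent.H4FF

open IntermediateField Module
open Pool.Agent.H4Abcd (nD lvl act spanW)

universe u v w

section

variable {k : Type u} {K : Type v} [Field k] [Field K] [Algebra k K] [CharZero k]
variable (hfg : (⊤ : IntermediateField k K).FG) (htr : Algebra.trdeg k K = 1)
variable [Algebra ℚ K] {ι : Type w} {N : ℕ}
variable (E : Option ι → Derivation ℚ K K) (z : Fin (N + 1) → K)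
variable (hE0 : ∀ c : k, E none (algebraMap k K c) = 0) (hD0 : ∃ f, E none f ≠ 0)

include hfg htr hE0 hD0 in
theorem height_bound2 {Δ : K} {A : ℕ} (hinv : Inv k E z Finset.univ Δ A)
    (t : Place k K → K) (ht : ∀ v : Place k K, v.lg (t v) = -1) :
    height k z ≤ (A : ℤ) *
      (rad k z + ∑ᶠ v : Place k K, (v.deg : ℤ) * v.lg (E none (t v))) := by
  classical
  have hf1 : (⋃ i, {v : Place k K | v.lg (z i) ≠ 0}).Finite :=
    Set.finite_iUnion fun i => finite_support hfg htr (z i)
  have hf2 := finite_support hfg htr (k := k) Δ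
  have hf3 := finite_support_der hfg htr (E none) hE0 hD0 t ht
  set S : Finset (Place k K) := hf1.toFinset ∪ (hf2.toFinset ∪ hf3.toFinset) with hS
  have hS1 : ∀ i (v : Place k K), v.lg (z i) ≠ 0 → v ∈ S := by
    intro i v hv
    rw [hS, Finset.mem_union, Set.Finite.mem_toFinset]
    exact Or.inl (Set.mem_iUnion.2 ⟨i, hv⟩)
  have hS2 : ∀ v : Place k K, v.lg Δ ≠ 0 → v ∈ S := by
    intro v hv
    rw [hS, Finset.mem_union, Finset.mem_union]
    exact Or.inr (Or.inl (hf2.mem_toFinset.2 hv))
  have hS3 : ∀ v : Place k K, v.lg (E none (t v)) ≠ 0 → v ∈ S := by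
    intro v hv
    rw [hS, Finset.mem_union, Finset.mem_union]
    exact Or.inr (Or.inr (hf3.mem_toFinset.2 hv))
  have e1 : height k z = ∑ v ∈ S, (v.deg : ℤ) * ⨆ i, v.lg (z i) := by
    apply finsum_eq_sum_of_support_subset
    intro v hv
    by_contra hvS
    apply hv
    have h1 : ∀ i, v.lg (z i) = 0 := fun i => by
      by_contra h
      exact hvS (hS1 i v h)
    change (v.deg : ℤ) * ⨆ i, v.lg (z i) = 0
    simp only [h1, ciSup_const, mul_zero]
  have e2 : rad k z = ∑ v ∈ S, if ∀ i j, v.lg (z i) = v.lg (z j) then 0 else (v.deg : ℤ) := by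
    apply finsum_eq_sum_of_support_subset
    intro v hv
    by_contra hvS
    apply hv
    have h1 : ∀ i, v.lg (z i) = 0 := fun i => by
      by_contra h
      exact hvS (hS1 i v h)
    change (if ∀ i j, v.lg (z i) = v.lg (z j) then 0 else (v.deg : ℤ)) = 0
    rw [if_pos]
    intro i j
    rw [h1, h1]
  have e3 : ∑ᶠ v : Place k K, (v.deg : ℤ) * v.lg (E none (t v)) =
      ∑ v ∈ S, (v.deg : ℤ) * v.lg (E none (t v)) := by
    apply finsum_eq_sum_of_support_subset
    intro v hv
    by_contra hvS
    apply hv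
    have h1 : v.lg (E none (t v)) = 0 := by
      by_contra h
      exact hvS (hS3 v h)
    change (v.deg : ℤ) * v.lg (E none (t v)) = 0
    rw [h1, mul_zero]
  have e4 := sum_eq_zero hfg htr Δ S hS2
  have e5 : ∑ v ∈ S, (v.deg : ℤ) * ∑ i, v.lg (z i) = 0 := by
    simp only [Finset.mul_sum]
    rw [Finset.sum_comm]
    exact Finset.sum_eq_zero fun i _ => sum_eq_zero hfg htr (z i) S (hS1 i)
  rw [e1, e2, e3]
  have key : ∀ v ∈ S, (v.deg : ℤ) * (⨆ i, v.lg (z i)) + (v.deg : ℤ) * v.lg Δ ≤
      (v.deg : ℤ) * ∑ i, v.lg (z i) +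
        A * ((if ∀ i j, v.lg (z i) = v.lg (z j) then 0 else (v.deg : ℤ)) +
          (v.deg : ℤ) * v.lg (E none (t v))) := by
    intro v _
    obtain ⟨l, hl⟩ := exists_eq_ciSup_of_finite (f := fun i => v.lg (z i))
    rw [← hl]
    have hdeg : (0 : ℤ) ≤ v.deg := Int.natCast_nonneg _
    split_ifs with hall
    · have h1 := hinv.flat v (t v) (ht v) hall l (Finset.mem_univ l)
      have h2 := mul_le_mul_of_nonneg_left h1 hdeg
      linarith
    · have h1 := hinv.rad v (t v) (ht v) l (Finset.mem_univ l)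
      have h2 := mul_le_mul_of_nonneg_left h1 hdeg
      linarith
  have h1 := Finset.sum_le_sum key
  rw [Finset.sum_add_distrib, Finset.sum_add_distrib, e4, e5, add_zero, zero_add,
    ← Finset.mul_sum, Finset.sum_add_distrib] at h1
  exact h1

variable [Algebra ℚ k] [IsScalarTower ℚ k K]
variable (hEk : ∀ b (c : k), ∃ c' : k, E (some b) (algebraMap k K c) = algebraMap k K c')

include hfg htr hE0 hD0 hEk in
theorem exists_inv (halg : ∀ f : K, (∀ l, E l f = 0) → IsAlgebraic ℚ f)
    (hz0 : ∀ i, z i ≠ 0) (hz : ∑ i, z i = 0)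
    (hsub : ∀ T : Finset (Fin (N + 1)), T.Nonempty → T ≠ Finset.univ → ∑ i ∈ T, z i ≠ 0) :
    ∃ (Δ : K) (A : ℕ), Inv k E z Finset.univ Δ A := by
  classical
  have key : ∀ d : ℕ, ∀ (S : Finset (Fin (N + 1))) (Δ : K) (A : ℕ), S.Nonempty →
      Inv k E z S Δ A → N + 1 ≤ S.card + d → ∃ (Δ : K) (A : ℕ), Inv k E z Finset.univ Δ A := by
    intro d
    induction d with
    | zero =>
      intro S Δ A _ hinv hd
      have h1 : S = Finset.univ := by
        rw [← Finset.card_eq_iff_eq_univ, Fintype.card_fin]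
        have := Finset.card_le_univ S
        rw [Fintype.card_fin] at this
        omega
      subst h1
      exact ⟨Δ, A, hinv⟩
    | succ d ih =>
      intro S Δ A hS hinv hd
      by_cases h1 : S = Finset.univ
      · subst h1
        exact ⟨Δ, A, hinv⟩
      · obtain ⟨S', Δ', A', hSS, hinv'⟩ := inv_step hfg htr E z hE0 hD0 hEk halg hz0 hz hsub S hS
          h1 Δ A hinv
        have h2 := Finset.card_lt_card hSS
        exact ih S' Δ' A' (hS.mono hSS.1) hinv' (by omega)
  exact key (N + 1) {0} 1 0 (Finset.singleton_nonempty 0) (inv_singleton E z 0) (by omega)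

end

section

variable {k : Type u} {K : Type v} [Field k] [Field K] [Algebra k K] [CharZero k] [CharZero K]
variable (hfg : (⊤ : IntermediateField k K).FG) (htr : Algebra.trdeg k K = 1)

include hfg htr in
/-- The main inequality for points without vanishing subsums. -/
theorem main2 : ∃ κ : ℤ,
    (∀ (D : Derivation k K K), D ≠ 0 → ∀ t : Place k K → K, (∀ v : Place k K, v.lg (t v) = -1) →
      ∑ᶠ v : Place k K, (v.deg : ℤ) * v.lg (D (t v)) = κ) ∧
    ∀ (m r : ℕ) (z : Fin (m + r + 3) → K), (∀ i, z i ≠ 0) → ∑ i, z i = 0 →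
      (∃ i j, Transcendental k (z i / z j)) →
      (0 < m → ∀ T : Finset (Fin (m + r + 3)), T.Nonempty → T ≠ Finset.univ →
        ∑ i ∈ T, z i ≠ 0) →
      ∀ idx : Fin (r + 1) → Fin (m + r + 3),
        (AlgebraicIndependent ℚ fun j => z (idx j) / z (Fin.last (m + r + 2))) →
        2 * height k z ≤ (m + 1) * (m + 2) * (rad k z + κ) := by
  obtain ⟨ι, E, hE0, hD0, hEk, hE2⟩ := exists_letters k K htr
  have hex : ∀ v : Place k K, ∃ t : K, v.lg t = -1 := fun v => by
    obtain ⟨t, -, ht⟩ := v.exists_unif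
    exact ⟨t, ht⟩
  choose t0 ht0 using hex
  refine ⟨∑ᶠ v : Place k K, (v.deg : ℤ) * v.lg (E none (t0 v)), ?_, ?_⟩
  · intro D hD t ht
    refine canon_unique hfg htr (D.restrictScalars ℤ) ((E none).restrictScalars ℤ) ?_ ?_ hE0 hD0
      t t0 ht ht0
    · intro c
      exact D.map_algebraMap c
    · by_contra h
      push Not at h
      exact hD (Derivation.ext h)
  · intro m r z hz0 hz hnc hsub0 idx hind
    have hsub : ∀ T : Finset (Fin (m + r + 3)), T.Nonempty → T ≠ Finset.univ →
        ∑ i ∈ T, z i ≠ 0 := by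
      rcases Nat.eq_zero_or_pos m with rfl | hm
      · intro T hT hT' h0
        classical
        have h1 := H4Abcd.rel_of_max E hE2 r (by omega) z hz idx hind
          (fun i => if i ∈ T then 1 else 0) (fun i => by
            split_ifs
            · exact isAlgebraic_one
            · exact isAlgebraic_zero) (by simpa [ite_mul, Finset.sum_ite_mem] using h0)
        obtain ⟨i, hi⟩ := hT
        apply hT'
        rw [Finset.eq_univ_iff_forall]
        intro j
        by_contra hj
        have h2 := h1 i j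
        simp only [hi, hj, if_true, if_false] at h2
        exact one_ne_zero h2
      · exact hsub0 hm
    have halg : ∀ f : K, (∀ l, E l f = 0) → IsAlgebraic ℚ f :=
      H4Abcd.isAlgebraic_of_forall E hE2
    obtain ⟨Δ, A, hinv⟩ := exists_inv hfg htr E z hE0 hD0 hEk halg hz0 hz hsub
    have hrank1 := H4Abcd.finrank_one E z (hz0 _) idx fun c hc =>
      H4Abcd.coeff_eq_zero_of_forall E hE2 _ hind c hc
    have hb := height_bound2 hfg htr E z hE0 hD0 hinv t0 ht0
    obtain ⟨p, hp, hpA⟩ := hinv.card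
    have hp1 : p ≤ m + 1 := by
      rw [Finset.card_univ, Fintype.card_fin, rho, res_univ] at hp
      omega
    have hA : 2 * A ≤ (m + 1) * (m + 2) := by
      refine hpA.trans ?_
      rw [mul_comm]
      exact Nat.mul_le_mul hp1 (by omega)
    obtain ⟨i, j, hij⟩ := hnc
    have hpos := height_pos hfg htr z hz0 i j hij
    set κ := ∑ᶠ v : Place k K, (v.deg : ℤ) * v.lg (E none (t0 v)) with hκ
    have hR : 0 < rad k z + κ := by
      by_contra h
      rw [not_lt] at h
      have : (A : ℤ) * (rad k z + κ) ≤ 0 :=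
        mul_nonpos_of_nonneg_of_nonpos (Int.natCast_nonneg _) h
      linarith
    have hA' : 2 * (A : ℤ) ≤ (m + 1) * (m + 2) := by exact_mod_cast hA
    have h1 := mul_le_mul_of_nonneg_right hA' hR.le
    linarith

end

end Pool.Agent.H4FF
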