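import Mathlib

/-!
The fundamental identity for a finite extension of Dedekind domains over a base field.
-/

namespace Pool.Agent.H4FF

open IsDedekindDomain Module

section

variable {k A B : Type*} [Field k] [CommRing A] [IsDedekindDomain A] [Algebra k A]
  [CommRing B] [IsDedekindDomain B] [Algebra A B] [Algebra k B] [IsScalarTower k A B]
  [Module.Finite A B]
variable (L K : Type*) [Field L] [Field K] [Algebra A L] [IsFractionRing A L] [Algebra B K]
  [IsFractionRing B K] [Algebra L K] [Algebra A K] [IsScalarTower A B K] [IsScalarTower A L K]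

set_option linter.deprecated false in
theorem fund (y : A) (hy : y ≠ 0) (hmax : (Ideal.span {y}).IsMaximal)
    (hbij : Function.Bijective (algebraMap k (A ⧸ Ideal.span {y}))) :
    ∃ S : Finset (HeightOneSpectrum B), (∀ P, P ∈ S ↔ algebraMap A B y ∈ P.asIdeal) ∧
      ∑ P ∈ S, finrank k (B ⧸ P.asIdeal) *
        multiplicity P.asIdeal (Ideal.span {algebraMap A B y}) = finrank L K := by
  classical
  set p : Ideal A := Ideal.span {y} with hp
  have hp0 : p ≠ ⊥ := by
    rw [hp, Ne, Ideal.span_singleton_eq_bot]
    exact hy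
  have hinjK : Function.Injective (algebraMap A K) := by
    rw [IsScalarTower.algebraMap_eq A L K]
    exact (algebraMap L K).injective.comp (IsFractionRing.injective A L)
  have hinj : Function.Injective (algebraMap A B) := by
    have h : Function.Injective (algebraMap B K ∘ algebraMap A B) := by
      rw [← RingHom.coe_comp, ← IsScalarTower.algebraMap_eq A B K]
      exact hinjK
    exact h.of_comp
  have htf : Module.IsTorsionFree A B := Module.isTorsionFree_iff_algebraMap_injective.2 hinj
  have hmap : p.map (algebraMap A B) = Ideal.span {algebraMap A B y} := by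
    rw [hp, Ideal.map_span, Set.image_singleton]
  have hmap0 : p.map (algebraMap A B) ≠ ⊥ := by
    rw [hmap, Ne, Ideal.span_singleton_eq_bot]
    exact fun h => hy (hinj (by rw [h, map_zero]))
  have hlies : ∀ P : Ideal B, P.IsPrime → algebraMap A B y ∈ P → P.LiesOver p := by
    intro P h1 h2
    refine ⟨?_⟩
    refine hmax.eq_of_le ?_ ?_
    · exact (Ideal.IsPrime.under A P).ne_top
    · rw [hp, Ideal.span_singleton_le_iff_mem]
      exact h2
  have hmem : ∀ P : Ideal B, P ∈ IsDedekindDomain.primesOverFinset p B ↔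
      P.IsPrime ∧ algebraMap A B y ∈ P := by
    intro P
    rw [IsDedekindDomain.mem_primesOverFinset_iff hp0 (B := B)]
    constructor
    · rintro ⟨h1, h2⟩
      refine ⟨h1, ?_⟩
      have h3 : p = P.under A := h2.over
      have h4 : y ∈ P.under A := by
        rw [← h3]; exact Ideal.mem_span_singleton_self y
      exact h4
    · rintro ⟨h1, h2⟩
      exact ⟨h1, hlies P h1 h2⟩
  have hbot : ∀ P : Ideal B, algebraMap A B y ∈ P → P ≠ ⊥ := by
    rintro P h rfl
    rw [Ideal.mem_bot] at h
    exact hy (hinj (by rw [h, map_zero]))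
  set T := IsDedekindDomain.primesOverFinset p B with hT
  let g : {P // P ∈ T} → HeightOneSpectrum B := fun P =>
    ⟨P.1, ((hmem P.1).1 P.2).1, hbot P.1 ((hmem P.1).1 P.2).2⟩
  have hg : Function.Injective g := by
    intro P Q h
    apply Subtype.ext
    exact congrArg HeightOneSpectrum.asIdeal h
  refine ⟨T.attach.image g, ?_, ?_⟩
  · intro P
    rw [Finset.mem_image]
    constructor
    · rintro ⟨Q, -, rfl⟩
      exact ((hmem Q.1).1 Q.2).2
    · intro h
      exact ⟨⟨P.asIdeal, (hmem _).2 ⟨P.isPrime, h⟩⟩, Finset.mem_attach _ _, rfl⟩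
  · rw [Finset.sum_image fun a _ b _ h => hg h, ← Ideal.sum_ramification_inertia B L K hp0,
      ← Finset.sum_attach T]
    refine Finset.sum_congr rfl fun P _ => ?_
    obtain ⟨h1, h2⟩ := (hmem P.1).1 P.2
    have h3 := hlies P.1 h1 h2
    have h4 : (P.1 : Ideal B).IsPrime := h1
    rw [Ideal.IsDedekindDomain.ramificationIdx'_eq_multiplicity hmap0 h1, Ideal.inertiaDeg'_algebraMap,
      hmap, mul_comm]
    congr 1
    change finrank k (B ⧸ (P.1 : Ideal B)) = _
    have htow : IsScalarTower k (A ⧸ p) (B ⧸ (P.1 : Ideal B)) := by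
      refine IsScalarTower.of_algebraMap_eq fun c => ?_
      rw [IsScalarTower.algebraMap_apply k A (A ⧸ p)]
      rw [Ideal.Quotient.algebraMap_eq]
      have e1 : algebraMap (A ⧸ p) (B ⧸ (P.1 : Ideal B)) (Ideal.Quotient.mk p (algebraMap k A c)) =
          Ideal.Quotient.mk P.1 (algebraMap A B (algebraMap k A c)) := rfl
      rw [e1, ← IsScalarTower.algebraMap_apply k A B]
      rfl
    have h5 : finrank k (A ⧸ p) = 1 := by
      have : Nontrivial (A ⧸ p) := Ideal.Quotient.nontrivial_iff.2 hmax.ne_top
      let e : k ≃ₗ[k] (A ⧸ p) := LinearEquiv.ofBijective (Algebra.linearMap k (A ⧸ p)) hbij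
      rw [← e.finrank_eq, finrank_self]
    let _ : Field (A ⧸ p) := Ideal.Quotient.field p
    rw [← finrank_mul_finrank k (A ⧸ p) (B ⧸ (P.1 : Ideal B)), h5, one_mul]

end

end Pool.Agent.H4FF
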