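import Pool.Agent.H4FF.Der
import Pool.Agent.H4Abcd.Rank
import Pool.Agent.H4Abcd.Det

/-!
The local inequality.
-/

namespace Pool.Agent.H4FF

open IntermediateField Module Polynomial Submodule
open scoped WithZero
open Pool.Agent.H4Abcd (nD lvl act spanW mat mat_zero mat_succ)

universe u v w

theorem exists_transcendental {k : Type u} {K : Type v} [Field k] [Field K] [Algebra k K]
    (htr : Algebra.trdeg k K = 1) : ∃ x : K, Transcendental k x := by
  by_contra h
  push Not at h
  have h1 : Algebra.IsAlgebraic k K := ⟨fun x => by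
    have := h x
    rwa [Transcendental, not_not] at this⟩
  have h2 : Algebra.trdeg k K = 0 := trdeg_eq_zero_iff.2 h1
  rw [htr] at h2
  exact one_ne_zero h2

section

variable {k : Type u} {K : Type v} [Field k] [Field K] [Algebra k K] [CharZero k]
variable (hfg : (⊤ : IntermediateField k K).FG) (htr : Algebra.trdeg k K = 1)
variable {R : Type w} [CommRing R] [Algebra R K]

include hfg htr in
theorem exists_bound (v : Place k K) (δ : Derivation R K K) (N : ℤᵐ⁰)
    (hN : ∀ c : k, v.val (δ (algebraMap k K c)) ≤ N) :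
    ∃ M, ∀ f, v.val f ≤ 1 → v.val (δ f) ≤ M := by
  classical
  obtain ⟨y, hy, hvy⟩ : ∃ y : K, Transcendental k y ∧ v.val y ≤ 1 := by
    obtain ⟨x, hx⟩ := exists_transcendental htr
    by_cases h : v.val x ≤ 1
    · exact ⟨x, hx, h⟩
    · refine ⟨x⁻¹, fun h2 => hx (by simpa using h2.inv), ?_⟩
      rw [map_inv₀]
      exact inv_le_one_of_one_le₀ (not_le.1 h).le
  have i1 := finiteDimensional_adjoin hfg htr hy
  obtain ⟨G, hG⟩ := exists_gens (k := k) y
  obtain ⟨h1, h2⟩ := hG v hvy
  refine ⟨max N (G.sup fun g => v.val (δ g)), fun f hf => ?_⟩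
  refine drop_bound δ v _ (fun c => (hN c).trans (le_max_left _ _)) (G : Set K) h1 ?_ hf (h2 f hf)
  intro g hg
  exact (Finset.le_sup (f := fun g => v.val (δ g)) hg).trans (le_max_right _ _)

include hfg htr in
theorem sharp' (v : Place k K) (δ : Derivation R K K) (N : ℤᵐ⁰)
    (hN : ∀ c : k, v.val (δ (algebraMap k K c)) ≤ N) {t : K} (ht : v.lg t = -1)
    (htN : v.val (δ t) ≤ N) {f : K} (hf : v.val f ≤ 1) : v.val (δ f) ≤ N := by
  obtain ⟨M, hM⟩ := exists_bound hfg htr v δ N hN
  exact sharp δ htr v M N hM hN ht htN hf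

omit [CharZero k] in
theorem ne_zero_of_lg {v : Place k K} {t : K} (ht : v.lg t = -1) : t ≠ 0 := by
  rintro rfl
  rw [Place.lg, map_zero, WithZero.log_zero] at ht
  norm_num at ht

include hfg htr in
theorem der_unif_ne_zero (v : Place k K) (D : Derivation R K K)
    (hD : ∀ c : k, D (algebraMap k K c) = 0) (hD0 : ∃ f, D f ≠ 0) {t : K} (ht : v.lg t = -1) :
    D t ≠ 0 := by
  intro h0
  obtain ⟨f, hf⟩ := hD0
  have h1 : ∀ f, v.val f ≤ 1 → D f = 0 := by
    intro f hf
    have := sharp' hfg htr v D 0 (fun c => by rw [hD, map_zero]) ht (by rw [h0, map_zero]) hf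
    exact (Valuation.zero_iff _).1 (le_antisymm this zero_le)
  apply hf
  by_cases h : v.val f ≤ 1
  · exact h1 f h
  · have h2 : v.val f⁻¹ ≤ 1 := by
      rw [map_inv₀]
      exact inv_le_one_of_one_le₀ (not_le.1 h).le
    have h3 := h1 _ h2
    rw [Derivation.leibniz_inv, smul_eq_mul] at h3
    have hf0 : f ≠ 0 := by
      rintro rfl
      rw [map_zero] at h
      exact h zero_le
    rcases mul_eq_zero.1 h3 with h4 | h4
    · exfalso
      rw [neg_eq_zero] at h4
      exact inv_ne_zero hf0 (pow_eq_zero_iff (two_ne_zero) |>.1 h4)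
    · exact h4

include hfg htr in
theorem preserve (v : Place k K) (δ : Derivation R K K)
    (hN : ∀ c : k, v.val (δ (algebraMap k K c)) ≤ 1) {t : K} (ht : v.lg t = -1)
    (htN : v.val (δ t) ≤ v.val t) (f : K) : v.val (δ f) ≤ v.val f := by
  have ht0 := ne_zero_of_lg ht
  have htle : v.val t ≤ 1 := by
    rw [← v.lg_nonpos_iff ht0, ht]; norm_num
  by_cases hf : f = 0
  · rw [hf, map_zero, map_zero]
  set n : ℤ := -v.lg f with hn
  obtain ⟨x, hx⟩ : ∃ x, x = f * t ^ (-n) := ⟨_, rfl⟩
  have hx0 : x ≠ 0 := by rw [hx]; exact mul_ne_zero hf (zpow_ne_zero _ ht0)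
  have hfx : f = t ^ n * x := by
    rw [hx, mul_comm f, ← mul_assoc, ← zpow_add₀ ht0, add_neg_cancel, zpow_zero, one_mul]
  have hlx : v.lg x = 0 := by
    rw [hx, v.lg_mul hf (zpow_ne_zero _ ht0)]
    have : v.lg (t ^ (-n)) = -n * v.lg t := by
      rw [Place.lg, map_zpow₀, WithZero.log_zpow, smul_eq_mul]; rfl
    rw [this, ht, hn]
    ring
  have hvx : v.val x = 1 := by
    rw [v.val_eq_exp hx0, hlx, WithZero.exp_zero]
  have hδx : v.val (δ x) ≤ 1 :=
    sharp' hfg htr v δ 1 hN ht (htN.trans htle) hvx.le
  have h1 : δ f = t ^ n * δ x + x * (n * t ^ n * (t⁻¹ * δ t)) := by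
    rw [hfx, Derivation.leibniz, smul_eq_mul, smul_eq_mul, Derivation.leibniz_zpow]
    congr 2
    rw [zpow_sub_one₀ ht0, smul_eq_mul, zsmul_eq_mul]
    ring
  have h2 : v.val (t⁻¹ * δ t) ≤ 1 := by
    rw [map_mul, map_inv₀]
    exact inv_mul_le_one_of_le₀ htN zero_le
  have h3 : v.val (n : K) ≤ 1 := by
    have := v.triv_le (n : k)
    rwa [map_intCast] at this
  have h4 : v.val f = v.val (t ^ n) := by
    rw [hfx, map_mul, hvx, mul_one]
  rw [h1, h4]
  refine (v.val.map_add _ _).trans (max_le ?_ ?_)
  · rw [map_mul]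
    exact (mul_le_mul' le_rfl hδx).trans_eq (mul_one _)
  · rw [map_mul, map_mul, map_mul, hvx, one_mul]
    calc v.val (n : K) * v.val (t ^ n) * v.val (t⁻¹ * δ t) ≤ 1 * v.val (t ^ n) * 1 :=
          mul_le_mul' (mul_le_mul' h3 le_rfl) h2
      _ = v.val (t ^ n) := by rw [one_mul, mul_one]

end

section

variable {K : Type v} [Field K] [Algebra ℚ K] {ι : Type w} {N : ℕ}

/-- A general frame. -/
noncomputable def frameK {n : ℕ} (E : Option ι → Derivation ℚ K K) (z : Fin n → K) (g s : K)
    (ξ : ι → K) : List (Option ι) → Fin n → K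
  | [] => z
  | none :: w => fun i => g * E none (frameK E z g s ξ w i) + s * frameK E z g s ξ w i
  | some b :: w => fun i =>
      E (some b) (frameK E z g s ξ w i) - ξ b * E none (frameK E z g s ξ w i)

theorem frameK_none {n : ℕ} (E : Option ι → Derivation ℚ K K) (z : Fin n → K) (g s : K)
    (ξ : ι → K) (w : List (Option ι)) (i : Fin n) : frameK E z g s ξ (none :: w) i =
      g * E none (frameK E z g s ξ w i) + s * frameK E z g s ξ w i := rfl

theorem frameK_some {n : ℕ} (E : Option ι → Derivation ℚ K K) (z : Fin n → K) (g s : K)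
    (ξ : ι → K) (b : ι) (w : List (Option ι)) (i : Fin n) : frameK E z g s ξ (some b :: w) i =
      E (some b) (frameK E z g s ξ w i) - ξ b * E none (frameK E z g s ξ w i) := rfl

/-- A family of words with the properties obtained in `exists_family`. -/
structure Good (E : Option ι → Derivation ℚ K K) (z : Fin (N + 1) → K)
    (w : Fin N → List (Option ι)) : Prop where
  /-- the family is linearly independent -/
  indep : LinearIndependent K (fun j => act E z (w j))
  /-- the span of the words of smaller level -/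
  lower : ∀ j u, lvl u < lvl (w j) → act E z u ∈ span K ((fun j => act E z (w j)) '' {i | i < j})

variable (E : Option ι → Derivation ℚ K K) (z : Fin (N + 1) → K) (w : Fin N → List (Option ι))

theorem det_frameK (hw : Good E z w) (g s : K) (ξ : ι → K) (u : Fin (N + 1) → K) :
    (mat u fun j => frameK E z g s ξ (w j)).det =
      g ^ (∑ j, nD (w j)) * (mat u fun j => act E z (w j)).det := by
  rw [← Finset.prod_pow_eq_pow_sum]
  apply H4Abcd.det_mat_triangular
  intro j
  have hf := H4Abcd.frame E z (frameK E z g s ξ) g (fun _ => s) ξ rfl (fun w i => rfl)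
    (fun b w i => rfl) (w j)
  refine (span_le.2 ?_) hf
  rintro _ ⟨u, hu, rfl⟩
  exact hw.lower j u hu

/-- The determinant. -/
noncomputable def Delta : K := (mat (Pi.single 0 1) fun j => act E z (w j)).det

theorem det_single_eq (hz : ∑ i, z i = 0) (l : Fin (N + 1)) :
    (mat (Pi.single l 1) fun j => act E z (w j)).det = Delta E z w :=
  H4Abcd.det_mat_single _ (fun j => H4Abcd.sum_act E z hz (w j)) l 0

theorem Delta_ne_zero (hz : ∑ i, z i = 0) (hw : Good E z w) : Delta E z w ≠ 0 :=
  H4Abcd.det_mat_ne_zero _ (fun j => H4Abcd.sum_act E z hz (w j)) hw.indep 0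

end

section

variable {k : Type u} {K : Type v} [Field k] [Field K] [Algebra k K] {N : ℕ}

theorem lg_prod (v : Place k K) {α : Type*} (s : Finset α) (c : α → K) (hc : ∀ i, c i ≠ 0) :
    v.lg (∏ i ∈ s, c i) = ∑ i ∈ s, v.lg (c i) := by
  classical
  induction s using Finset.induction_on with
  | empty => rw [Finset.prod_empty, Finset.sum_empty, Place.lg, map_one, WithZero.log_one]
  | insert a s ha ih =>
    rw [Finset.prod_insert ha, Finset.sum_insert ha,
      v.lg_mul (hc a) (Finset.prod_ne_zero_iff.2 fun i _ => hc i), ih]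

/-- Bound for the determinant. -/
theorem lg_det_le (v : Place k K) (l : Fin (N + 1)) (V : Fin N → Fin (N + 1) → K)
    (c : Fin (N + 1) → K) (hc : ∀ i, c i ≠ 0) (h : ∀ j i, v.val (V j i) ≤ v.val (c i))
    (hdet : (mat (Pi.single l 1) V).det ≠ 0) :
    v.lg (c l) + v.lg (mat (Pi.single l 1) V).det ≤ ∑ i, v.lg (c i) := by
  classical
  have h1 : v.val (mat (Pi.single l 1) V).det ≤ v.val (∏ i ∈ Finset.univ.erase l, c i) := by
    rw [Matrix.det_apply']
    apply v.val.map_sum_le
    intro σ _
    by_cases hσ : σ l = 0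
    · rw [← Finset.mul_prod_erase Finset.univ _ (Finset.mem_univ l), hσ, mat_zero,
        Pi.single_eq_same, one_mul, map_mul, map_prod, map_prod]
      have h2 : v.val ((Equiv.Perm.sign σ : ℤ) : K) ≤ 1 := by
        have := v.triv_le ((Equiv.Perm.sign σ : ℤ) : k)
        rwa [map_intCast] at this
      calc _ ≤ 1 * ∏ i ∈ Finset.univ.erase l, v.val (c i) := by
            refine mul_le_mul' h2 (Finset.prod_le_prod' fun i hi => ?_)
            have h3 : σ i ≠ 0 := by
              intro h4
              exact Finset.ne_of_mem_erase hi (σ.injective (h4.trans hσ.symm))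
            obtain ⟨j, hj⟩ := Fin.exists_succ_eq.2 h3
            rw [← hj, mat_succ]
            exact h j i
        _ = _ := one_mul _
    · obtain ⟨i, hi⟩ := σ.surjective 0
      have h3 : i ≠ l := by
        rintro rfl
        exact hσ hi
      have h4 : ∏ i, mat (Pi.single l 1) V (σ i) i = 0 := by
        apply Finset.prod_eq_zero (Finset.mem_univ i)
        rw [hi, mat_zero, Pi.single_eq_of_ne h3]
      rw [h4, mul_zero, map_zero]
      exact zero_le
  have h2 : ∏ i ∈ Finset.univ.erase l, c i ≠ 0 := Finset.prod_ne_zero_iff.2 fun i _ => hc i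
  rw [← v.lg_le_lg hdet h2, lg_prod v _ c hc] at h1
  rw [← Finset.add_sum_erase Finset.univ (fun i => v.lg (c i)) (Finset.mem_univ l)]
  linarith

end

section

variable {k : Type u} {K : Type v} [Field k] [Field K] [Algebra k K] [CharZero k] [Algebra ℚ K]
variable (hfg : (⊤ : IntermediateField k K).FG) (htr : Algebra.trdeg k K = 1)
variable {ι : Type w} {N : ℕ}
variable (E : Option ι → Derivation ℚ K K) (z : Fin (N + 1) → K) (w : Fin N → List (Option ι))
variable (hE0 : ∀ c : k, E none (algebraMap k K c) = 0) (hD0 : ∃ f, E none f ≠ 0)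
variable (hEk : ∀ b (c : k), ∃ c' : k, E (some b) (algebraMap k K c) = algebraMap k K c')

include hfg htr hE0 hD0 hEk in
theorem preserve_some (v : Place k K) {t : K} (ht : v.lg t = -1) (b : ι) (f : K) :
    v.val (E (some b) f - E (some b) t / E none t * E none f) ≤ v.val f := by
  have hDt := der_unif_ne_zero hfg htr v (E none) hE0 hD0 ht
  have h := preserve hfg htr v (E (some b) - (E (some b) t / E none t) • E none) (by
    intro c
    rw [Derivation.sub_apply, Derivation.smul_apply, hE0, smul_zero, sub_zero]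
    obtain ⟨c', hc'⟩ := hEk b c
    rw [hc']
    exact v.triv_le c') ht (by
    rw [Derivation.sub_apply, Derivation.smul_apply, smul_eq_mul, div_mul_cancel₀ _ hDt, sub_self,
      map_zero]
    exact zero_le) f
  rw [Derivation.sub_apply, Derivation.smul_apply, smul_eq_mul] at h
  exact h

include hfg htr hE0 hD0 hEk in
/-- The local inequality at any place. -/
theorem local_rad (hz : ∑ i, z i = 0) (hz0 : ∀ i, z i ≠ 0) (hw : Good E z w) (v : Place k K)
    {t : K} (ht : v.lg t = -1) (l : Fin (N + 1)) :
    v.lg (z l) + v.lg (Delta E z w) ≤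
      ∑ i, v.lg (z i) + (∑ j, nD (w j) : ℕ) * (1 + v.lg (E none t)) := by
  have hDt := der_unif_ne_zero hfg htr v (E none) hE0 hD0 ht
  have ht0 := ne_zero_of_lg ht
  have hne := Delta_ne_zero E z w hz hw
  set g := t / E none t with hg
  have hg0 : g ≠ 0 := div_ne_zero ht0 hDt
  have h1 := det_frameK E z w hw g 0 (fun b => E (some b) t / E none t) (Pi.single l 1)
  rw [det_single_eq E z w hz l] at h1
  have h2 : ∀ w i, v.val (frameK E z g 0 (fun b => E (some b) t / E none t) w i) ≤
      v.val (z i) := by
    intro w i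
    induction w with
    | nil => exact le_rfl
    | cons a w ih =>
      refine le_trans ?_ ih
      cases a with
      | none =>
        rw [frameK_none, zero_mul, add_zero]
        have h := preserve hfg htr v (g • E none) (by
          intro c
          rw [Derivation.smul_apply, hE0, smul_zero, map_zero]
          exact zero_le) ht (by
          rw [Derivation.smul_apply, smul_eq_mul, hg, div_mul_cancel₀ _ hDt])
          (frameK E z g 0 (fun b => E (some b) t / E none t) w i)
        rw [Derivation.smul_apply, smul_eq_mul] at h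
        exact h
      | some b =>
        rw [frameK_some]
        exact preserve_some hfg htr E hE0 hD0 hEk v ht b _
  have h3 := lg_det_le v l _ z hz0 (fun j i => h2 (w j) i) (by
    rw [h1]; exact mul_ne_zero (pow_ne_zero _ hg0) hne)
  rw [h1, v.lg_mul (pow_ne_zero _ hg0) hne, v.lg_pow] at h3
  have h4 : v.lg g = -1 - v.lg (E none t) := by
    rw [hg, div_eq_mul_inv, v.lg_mul ht0 (inv_ne_zero hDt), v.lg_inv, ht]
    ring
  rw [h4] at h3
  linarith

include hfg htr hE0 hD0 hEk in
/-- The local inequality at a place where the valuations of the `z i` are equal. -/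
theorem local_nonrad (hz : ∑ i, z i = 0) (hz0 : ∀ i, z i ≠ 0) (hw : Good E z w) (v : Place k K)
    (hv : ∀ i j, v.val (z i) = v.val (z j)) {t : K} (ht : v.lg t = -1) (l : Fin (N + 1)) :
    v.lg (z l) + v.lg (Delta E z w) ≤
      ∑ i, v.lg (z i) + (∑ j, nD (w j) : ℕ) * v.lg (E none t) := by
  have hDt := der_unif_ne_zero hfg htr v (E none) hE0 hD0 ht
  have ht0 := ne_zero_of_lg ht
  have hne := Delta_ne_zero E z w hz hw
  set q := z 0 with hq
  have hq0 : q ≠ 0 := hz0 0
  set g := (E none t)⁻¹ with hg
  have hg0 : g ≠ 0 := inv_ne_zero hDt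
  have h1 := det_frameK E z w hw g (-(g * (E none q / q))) (fun b => E (some b) t / E none t)
    (Pi.single l 1)
  rw [det_single_eq E z w hz l] at h1
  have h2 : ∀ w i, v.val (frameK E z g (-(g * (E none q / q)))
      (fun b => E (some b) t / E none t) w i) ≤ v.val q := by
    intro w i
    induction w with
    | nil => exact (hv i 0).le
    | cons a w ih =>
      cases a with
      | none =>
        rw [frameK_none]
        set f := frameK E z g (-(g * (E none q / q))) (fun b => E (some b) t / E none t) w i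
        have h3 : g * E none f + -(g * (E none q / q)) * f = g * (q * E none (f / q)) := by
          rw [Derivation.leibniz_div]
          simp only [smul_eq_mul]
          field_simp
          ring
        have h4 : v.val (f / q) ≤ 1 := by
          rw [map_div₀]
          exact div_le_one_of_le₀ ih zero_le
        have h5 := sharp' hfg htr v (E none) (v.val (E none t)) (fun c => by
          rw [hE0, map_zero]; exact zero_le) ht le_rfl h4
        rw [h3, map_mul, map_mul, hg, map_inv₀]
        calc (v.val (E none t))⁻¹ * (v.val q * v.val (E none (f / q)))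
            ≤ (v.val (E none t))⁻¹ * (v.val q * v.val (E none t)) :=
              mul_le_mul' le_rfl (mul_le_mul' le_rfl h5)
          _ = v.val q := by
            rw [mul_comm (v.val q), ← mul_assoc, inv_mul_cancel₀ (v.val_ne_zero hDt), one_mul]
      | some b =>
        rw [frameK_some]
        exact (preserve_some hfg htr E hE0 hD0 hEk v ht b _).trans ih
  have h3 := lg_det_le v l _ z hz0 (fun j i => (h2 (w j) i).trans (hv 0 i).le) (by
    rw [h1]; exact mul_ne_zero (pow_ne_zero _ hg0) hne)
  rw [h1, v.lg_mul (pow_ne_zero _ hg0) hne, v.lg_pow] at h3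
  have h4 : v.lg g = - v.lg (E none t) := by rw [hg, v.lg_inv]
  rw [h4] at h3
  linarith

end

end Pool.Agent.H4FF
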