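import Pool.Agent.H4FF.Defs

/-!
Places of a field over a base field, and their description by the primes of a Dedekind domain.
-/

namespace Pool.Agent.H4FF

open IsDedekindDomain Module
open scoped WithZero

section

variable {k K : Type*} [Field k] [Field K] [Algebra k K] (v : Place k K)

namespace Place

theorem val_ne_zero {x : K} (hx : x ≠ 0) : v.val x ≠ 0 := (Valuation.ne_zero_iff _).2 hx

theorem lg_mul {x y : K} (hx : x ≠ 0) (hy : y ≠ 0) : v.lg (x * y) = v.lg x + v.lg y := by
  rw [lg, map_mul, WithZero.log_mul (v.val_ne_zero hx) (v.val_ne_zero hy)]; rfl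

theorem lg_inv (x : K) : v.lg x⁻¹ = -v.lg x := by
  rw [lg, map_inv₀, WithZero.log_inv]; rfl

theorem lg_pow (x : K) (n : ℕ) : v.lg (x ^ n) = n * v.lg x := by
  rw [lg, map_pow, WithZero.log_pow, nsmul_eq_mul]; rfl

theorem lg_algebraMap (c : k) : v.lg (algebraMap k K c) = 0 := by
  by_cases h : c = 0
  · rw [h, lg, map_zero, map_zero, WithZero.log_zero]
  · rw [lg, v.triv c h, WithZero.log_one]

theorem lg_le_lg {x y : K} (hx : x ≠ 0) (hy : y ≠ 0) : v.lg x ≤ v.lg y ↔ v.val x ≤ v.val y :=
  WithZero.log_le_log (v.val_ne_zero hx) (v.val_ne_zero hy)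

theorem lg_neg_iff {x : K} (hx : x ≠ 0) : v.lg x < 0 ↔ v.val x < 1 := by
  rw [lg, WithZero.log_lt_iff_lt_exp (v.val_ne_zero hx), WithZero.exp_zero]

theorem lg_nonpos_iff {x : K} (hx : x ≠ 0) : v.lg x ≤ 0 ↔ v.val x ≤ 1 := by
  rw [lg, WithZero.log_le_iff_le_exp (v.val_ne_zero hx), WithZero.exp_zero]

theorem val_eq_exp {x : K} (hx : x ≠ 0) : v.val x = WithZero.exp (v.lg x) :=
  (WithZero.exp_log (v.val_ne_zero hx)).symm

/-- Integral elements have valuation at most one. -/
theorem le_one_of_isIntegral {R : Type*} [CommRing R] [Algebra R K]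
    (hR : ∀ r : R, v.val (algebraMap R K r) ≤ 1) {x : K} (hx : IsIntegral R x) : v.val x ≤ 1 := by
  let φ : R →+* v.val.integer := (algebraMap R K).codRestrict v.val.integer hR
  obtain ⟨p, hp, hpb⟩ := hx
  have h1 : IsIntegral v.val.integer x := by
    refine ⟨p.map φ, hp.map φ, ?_⟩
    rw [Polynomial.eval₂_map]
    exact hpb
  exact (Valuation.integer.integers v.val).mem_of_integral h1

theorem lg_of_isAlgebraic {x : K} (hx : IsAlgebraic k x) : v.lg x = 0 := by
  by_cases h0 : x = 0
  · rw [h0, lg, map_zero, WithZero.log_zero]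
  · apply le_antisymm
    · rw [v.lg_nonpos_iff h0]
      exact v.le_one_of_isIntegral v.triv_le hx.isIntegral
    · have h1 : v.lg x⁻¹ ≤ 0 := by
        rw [v.lg_nonpos_iff (inv_ne_zero h0)]
        exact v.le_one_of_isIntegral v.triv_le hx.inv.isIntegral
      rw [v.lg_inv] at h1
      linarith

theorem exists_unif : ∃ t : K, t ≠ 0 ∧ v.lg t = -1 := by
  obtain ⟨t, ht⟩ := v.surj (WithZero.exp (-1))
  refine ⟨t, ?_, ?_⟩
  · rintro rfl
    rw [map_zero] at ht
    exact WithZero.exp_ne_zero ht.symm
  · rw [lg, ht, WithZero.log_exp]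

end Place

end

section

variable {k K B : Type*} [Field k] [Field K] [Algebra k K] [CommRing B] [IsDedekindDomain B]
  [Algebra k B] [Algebra B K] [IsScalarTower k B K] [IsFractionRing B K]

variable (k K) in
/-- The place given by a prime. -/
noncomputable def ofPrime (P : HeightOneSpectrum B) : Place k K where
  val := P.valuation K
  surj := P.valuation_surjective K
  triv := by
    intro c hc
    rw [IsScalarTower.algebraMap_apply k B K, HeightOneSpectrum.valuation_eq_one_iff_notMem]
    intro h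
    exact P.isPrime.ne_top (Ideal.eq_top_of_isUnit_mem _ h ((IsUnit.mk0 c hc).map (algebraMap k B)))

theorem ofPrime_injective : Function.Injective (ofPrime k K (B := B)) := by
  intro P Q h
  have h1 : P.valuation K = Q.valuation K := congrArg Place.val h
  ext b
  rw [← HeightOneSpectrum.valuation_lt_one_iff_mem (K := K) P, h1,
    HeightOneSpectrum.valuation_lt_one_iff_mem]

/-- A place whose valuation ring contains `B` is given by a prime. -/
theorem exists_ofPrime (v : Place k K) (hB : ∀ b : B, v.val (algebraMap B K b) ≤ 1) :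
    ∃ P : HeightOneSpectrum B, v = ofPrime k K P := by
  let I : Ideal B :=
    { carrier := {b | v.val (algebraMap B K b) < 1}
      add_mem' := fun {a b} ha hb => by
        rw [Set.mem_ofPred_eq, map_add]
        exact (v.val.map_add _ _).trans_lt (max_lt ha hb)
      zero_mem' := by simp
      smul_mem' := fun c x hx => by
        rw [Set.mem_ofPred_eq, smul_eq_mul, map_mul, map_mul]
        exact mul_lt_one_of_nonneg_of_lt_one_right (hB c) zero_le hx }
  have hI : ∀ b, b ∈ I ↔ v.val (algebraMap B K b) < 1 := fun b => Iff.rfl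
  have hnot : ∀ b, b ∉ I → v.val (algebraMap B K b) = 1 := fun b hb =>
    le_antisymm (hB b) (not_lt.1 hb)
  have hprime : I.IsPrime := by
    refine ⟨?_, ?_⟩
    · rw [Ideal.ne_top_iff_one, hI, map_one, map_one]
      exact lt_irrefl _
    · intro a b hab
      by_contra h
      push Not at h
      rw [hI, map_mul, map_mul, hnot a h.1, hnot b h.2, mul_one] at hab
      exact lt_irrefl _ hab
  have hbot : I ≠ ⊥ := by
    obtain ⟨t, ht0, ht⟩ := v.exists_unif
    obtain ⟨a, b, hb, rfl⟩ := IsFractionRing.div_surjective (A := B) t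
    have hb0 : algebraMap B K b ≠ 0 := by
      rw [Ne, IsFractionRing.to_map_eq_zero_iff]
      exact nonZeroDivisors.ne_zero hb
    have ha0 : a ≠ 0 := by
      rintro rfl
      rw [map_zero, zero_div] at ht0
      exact ht0 rfl
    intro h
    have ha : a ∈ I := by
      rw [hI]
      have h1 : v.val (algebraMap B K a / algebraMap B K b) < 1 := by
        rw [← v.lg_neg_iff ht0, ht]; norm_num
      have h2 : algebraMap B K a = algebraMap B K a / algebraMap B K b * algebraMap B K b := by
        field_simp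
      rw [h2, map_mul]
      exact mul_lt_one_of_lt_of_le h1 (hB b)
    rw [h, Ideal.mem_bot] at ha
    exact ha0 ha
  let P : HeightOneSpectrum B := ⟨I, hprime, hbot⟩
  have h1 : ∀ x : K, P.valuation K x ≤ 1 → v.val x ≤ 1 := by
    intro x hx
    obtain ⟨n, d, hd⟩ := P.exists_primeCompl_mul_eq_of_integer x hx
    have h2 := congrArg v.val hd
    rw [map_mul, hnot d d.2, mul_one] at h2
    rw [h2]
    exact hB n
  have h2 : ∀ x : K, P.valuation K x = 1 → v.val x = 1 := by
    intro x hx
    have hx0 : x ≠ 0 := by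
      rintro rfl
      rw [map_zero] at hx
      exact zero_ne_one hx
    refine le_antisymm (h1 x hx.le) ?_
    have h3 := h1 x⁻¹ (by rw [map_inv₀, hx, inv_one])
    rw [map_inv₀] at h3
    exact (inv_le_one₀ (zero_lt_iff.2 (v.val_ne_zero hx0))).1 h3
  obtain ⟨π, hπ⟩ := P.valuation_exists_uniformizer K
  have hπ0 : π ≠ 0 := by
    rintro rfl
    rw [map_zero] at hπ
    exact WithZero.exp_ne_zero hπ.symm
  have h3 : ∀ x : K, x ≠ 0 → v.lg x = (-v.lg π) * WithZero.log (P.valuation K x) := by
    intro x hx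
    have h4 : P.valuation K (x * π ^ (WithZero.log (P.valuation K x))) = 1 := by
      rw [map_mul, map_zpow₀, hπ, ← WithZero.exp_zsmul, smul_eq_mul, mul_neg, mul_one,
        WithZero.exp_neg, WithZero.exp_log ((Valuation.ne_zero_iff _).2 hx)]
      exact mul_inv_cancel₀ ((Valuation.ne_zero_iff _).2 hx)
    have h5 := h2 _ h4
    have h6 : v.lg (x * π ^ (WithZero.log (P.valuation K x))) = 0 := by
      rw [Place.lg, h5, WithZero.log_one]
    rw [v.lg_mul hx (zpow_ne_zero _ hπ0)] at h6
    have h7 : v.lg (π ^ (WithZero.log (P.valuation K x))) =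
        WithZero.log (P.valuation K x) * v.lg π := by
      rw [Place.lg, map_zpow₀, WithZero.log_zpow, smul_eq_mul]; rfl
    rw [h7] at h6
    linarith
  have h4 : v.lg π ≤ 0 := by
    rw [v.lg_nonpos_iff hπ0]
    apply h1
    rw [hπ, ← WithZero.exp_zero, WithZero.exp_le_exp]
    norm_num
  have h5 : v.lg π = -1 := by
    obtain ⟨t, ht0, ht⟩ := v.exists_unif
    have h6 := h3 t ht0
    rw [ht] at h6
    have h7 : (-v.lg π) ∣ -1 := ⟨_, h6⟩
    rw [dvd_neg] at h7
    rcases Int.isUnit_iff.1 (isUnit_of_dvd_one h7) with h8 | h8 <;> omega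
  refine ⟨P, Place.ext (Valuation.ext fun x => ?_)⟩
  by_cases hx : x = 0
  · rw [hx, map_zero, map_zero]
  · rw [v.val_eq_exp hx, h3 x hx, h5, neg_neg, one_mul]
    exact WithZero.exp_log ((Valuation.ne_zero_iff _).2 hx)

theorem deg_ofPrime (P : HeightOneSpectrum B) :
    (ofPrime k K P).deg = finrank k (B ⧸ P.asIdeal) := by
  set v := ofPrime k K P with hv
  have hB : ∀ b : B, algebraMap B K b ∈ v.int := fun b => P.valuation_le_one b
  let f : B →ₗ[k] v.int := LinearMap.codRestrict v.int
    ((IsScalarTower.toAlgHom k B K).toLinearMap) hB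
  let φ : B →ₗ[k] (v.int ⧸ v.mx) := v.mx.mkQ ∘ₗ f
  let π : B →ₗ[k] (B ⧸ P.asIdeal) := (Ideal.Quotient.mkₐ k P.asIdeal).toLinearMap
  have hφ : Function.Surjective φ := by
    intro y
    obtain ⟨x, rfl⟩ := v.mx.mkQ_surjective y
    obtain ⟨b, hb⟩ := P.exists_valuation_sub_lt_of_integer (K := K) (x := x) x.2 1
    refine ⟨b, ?_⟩
    change v.mx.mkQ (f b) = v.mx.mkQ x
    rw [← sub_eq_zero, ← map_sub, Submodule.mkQ_apply, Submodule.Quotient.mk_eq_zero]
    exact hb
  have hπ : Function.Surjective π := Ideal.Quotient.mk_surjective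
  have hker : LinearMap.ker φ = LinearMap.ker π := by
    ext b
    rw [LinearMap.mem_ker, LinearMap.mem_ker]
    change v.mx.mkQ (f b) = 0 ↔ Ideal.Quotient.mk P.asIdeal b = 0
    rw [Submodule.mkQ_apply, Submodule.Quotient.mk_eq_zero, Ideal.Quotient.eq_zero_iff_mem,
      ← P.valuation_lt_one_iff_mem (K := K)]
    rfl
  let e1 := φ.quotKerEquivOfSurjective hφ
  let e2 := π.quotKerEquivOfSurjective hπ
  let e3 := Submodule.quotEquivOfEq _ _ hker
  exact ((e1.symm.trans e3).trans e2).finrank_eq

theorem lg_ofPrime (P : HeightOneSpectrum B) {b : B} (hb : b ≠ 0) :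
    (ofPrime k K P).lg (algebraMap B K b) = -multiplicity P.asIdeal (Ideal.span {b}) := by
  rw [Place.lg, ofPrime, HeightOneSpectrum.valuation_of_algebraMap,
    HeightOneSpectrum.intValuation_eq_exp_neg_multiplicity _ hb, WithZero.log_exp]

end

end Pool.Agent.H4FF
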