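import Pool.Agent.H4FF.Fund
import Pool.Agent.H4FF.Place

/-!
Places of a function field and the integral closure of `k[y]`.
-/

namespace Pool.Agent.H4FF

open IntermediateField Module IsDedekindDomain Polynomial
open scoped IntermediateField.algebraAdjoinAdjoin WithZero

universe u v

section

variable {k : Type u} {K : Type v} [Field k] [Field K] [Algebra k K] (y : K)

theorem isPrincipalIdealRing_adjoin : IsPrincipalIdealRing (Algebra.adjoin k {y}) := by
  let φ : k[X] →+* Algebra.adjoin k {y} :=
    ((aeval y).codRestrict (Algebra.adjoin k {y})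
      (fun p => aeval_mem_adjoin_singleton k y)).toRingHom
  have h : Function.Surjective φ := by
    rintro ⟨a, ha⟩
    rw [Algebra.adjoin_singleton_eq_range_aeval] at ha
    obtain ⟨p, hp⟩ := ha
    exact ⟨p, Subtype.ext hp⟩
  exact IsPrincipalIdealRing.of_surjective φ h

/-- The generator of `k[y]`. -/
def gen (k : Type u) {K : Type v} [Field k] [Field K] [Algebra k K] (y : K) :
    Algebra.adjoin k {y} := ⟨y, Algebra.self_mem_adjoin_singleton k y⟩

variable {y} in
theorem not_isUnit_gen (hy : Transcendental k y) : ¬ IsUnit (gen k y) := by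
  rintro h
  obtain ⟨b, hb⟩ := h.exists_right_inv
  obtain ⟨b, hb2⟩ := b
  rw [Algebra.adjoin_singleton_eq_range_aeval] at hb2
  obtain ⟨p, rfl⟩ := hb2
  have h1 : y * aeval y p = 1 := congrArg Subtype.val hb
  have h2 : aeval y (X * p - 1) = 0 := by
    rw [map_sub, map_mul, aeval_X, map_one, h1, sub_self]
  have h3 := (transcendental_iff.1 hy) _ h2
  have h4 := congrArg (Polynomial.eval 0) h3
  simp at h4

variable {y} in
theorem bijective_quotient (hy : Transcendental k y) :
    Function.Bijective (algebraMap k (Algebra.adjoin k {y} ⧸ Ideal.span {gen k y})) := by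
  constructor
  · have : Nontrivial (Algebra.adjoin k {y} ⧸ Ideal.span {gen k y}) := by
      rw [Ideal.Quotient.nontrivial_iff, Ne, Ideal.span_singleton_eq_top]
      exact not_isUnit_gen hy
    exact (algebraMap k _).injective
  · intro x
    obtain ⟨⟨a, ha⟩, rfl⟩ := Ideal.Quotient.mk_surjective x
    rw [Algebra.adjoin_singleton_eq_range_aeval] at ha
    obtain ⟨p, rfl⟩ := ha
    refine ⟨p.coeff 0, ?_⟩
    rw [IsScalarTower.algebraMap_apply k (Algebra.adjoin k {y}), Ideal.Quotient.algebraMap_eq,
      Ideal.Quotient.eq, Ideal.mem_span_singleton]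
    refine ⟨-⟨aeval y p.divX, aeval_mem_adjoin_singleton k y⟩, ?_⟩
    apply Subtype.ext
    change algebraMap k K (p.coeff 0) - aeval y p = y * -aeval y p.divX
    conv_lhs => rw [← p.X_mul_divX_add]
    rw [map_add, map_mul, aeval_X, aeval_C]
    simp

variable {y} in
theorem isMaximal_span (hy : Transcendental k y) : (Ideal.span {gen k y}).IsMaximal := by
  apply Ideal.Quotient.maximal_of_isField
  let e : k ≃+* (Algebra.adjoin k {y} ⧸ Ideal.span {gen k y}) :=
    RingEquiv.ofBijective (algebraMap k _) (bijective_quotient hy)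
  exact e.symm.toMulEquiv.isField (Field.toIsField k)

variable [CharZero k] [FiniteDimensional k⟮y⟯ K]

theorem finite_integralClosure :
    Module.Finite (Algebra.adjoin k {y}) (integralClosure (Algebra.adjoin k {y}) K) := by
  have := isPrincipalIdealRing_adjoin (k := k) y
  have h2 : Algebra.IsSeparable k⟮y⟯ K := inferInstance
  exact IsIntegralClosure.finite (Algebra.adjoin k {y}) k⟮y⟯ K
    (integralClosure (Algebra.adjoin k {y}) K)

theorem isDedekindDomain_integralClosure :
    IsDedekindDomain (integralClosure (Algebra.adjoin k {y}) K) := by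
  have := isPrincipalIdealRing_adjoin (k := k) y
  have h2 : Algebra.IsSeparable k⟮y⟯ K := inferInstance
  exact integralClosure.isDedekindDomain (Algebra.adjoin k {y}) k⟮y⟯ K

omit [CharZero k] in
theorem isFractionRing_integralClosure :
    IsFractionRing (integralClosure (Algebra.adjoin k {y}) K) K :=
  integralClosure.isFractionRing_of_finite_extension k⟮y⟯ K

omit [CharZero k] [FiniteDimensional k⟮y⟯ K] in
/-- Places at which `y` is regular are nonnegative on the integral closure of `k[y]`. -/
theorem le_one_of_mem (v : Place k K) (hv : v.val y ≤ 1)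
    (b : integralClosure (Algebra.adjoin k {y}) K) : v.val (b : K) ≤ 1 := by
  have hA : ∀ a : Algebra.adjoin k {y}, v.val (a : K) ≤ 1 := by
    rintro ⟨a, ha⟩
    change v.val a ≤ 1
    induction ha using Algebra.adjoin_induction with
    | mem x hx =>
      rw [Set.mem_singleton_iff] at hx
      rw [hx]; exact hv
    | algebraMap c => exact v.triv_le c
    | add x x' _ _ h1 h2 => exact (v.val.map_add _ _).trans (max_le h1 h2)
    | mul x x' _ _ h1 h2 => rw [map_mul]; exact mul_le_one' h1 h2
  exact v.le_one_of_isIntegral hA b.2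

variable {y} in
/-- The zeros of `y`, counted with multiplicities and degrees. -/
theorem zeros (hy : Transcendental k y) :
    ∃ S : Finset (Place k K), (∀ v, v ∈ S ↔ v.val y < 1) ∧
      ∑ v ∈ S, (v.deg : ℤ) * v.lg y = -finrank k⟮y⟯ K := by
  classical
  have hy0 : y ≠ 0 := fun h => hy (by rw [h]; exact isAlgebraic_zero)
  have i1 := isPrincipalIdealRing_adjoin (k := k) y
  have i2 := finite_integralClosure (k := k) y
  have i3 := isDedekindDomain_integralClosure (k := k) y
  have i4 := isFractionRing_integralClosure (k := k) y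
  have hg0 : gen k y ≠ 0 := fun h => hy0 (congrArg Subtype.val h)
  obtain ⟨T, hT1, hT2⟩ := fund (k := k) (B := integralClosure (Algebra.adjoin k {y}) K)
    k⟮y⟯ K (gen k y) hg0 (isMaximal_span hy) (bijective_quotient hy)
  set b : integralClosure (Algebra.adjoin k {y}) K :=
    algebraMap (Algebra.adjoin k {y}) _ (gen k y) with hb
  have hby : algebraMap (integralClosure (Algebra.adjoin k {y}) K) K b = y := rfl
  have hb0 : b ≠ 0 := fun h => hy0 (by rw [← hby, h, map_zero])
  have hmem : ∀ P : HeightOneSpectrum (integralClosure (Algebra.adjoin k {y}) K),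
      b ∈ P.asIdeal ↔ (ofPrime k K P).val y < 1 := by
    intro P
    rw [← P.valuation_lt_one_iff_mem (K := K)]
    rfl
  refine ⟨T.image (ofPrime k K), ?_, ?_⟩
  · intro v
    rw [Finset.mem_image]
    constructor
    · rintro ⟨P, hP, rfl⟩
      rw [← hmem, ← hT1]
      exact hP
    · intro h
      obtain ⟨P, rfl⟩ := exists_ofPrime (B := integralClosure (Algebra.adjoin k {y}) K) v
        (fun b => le_one_of_mem y v h.le b)
      exact ⟨P, by rw [hT1, hmem]; exact h, rfl⟩
  · rw [Finset.sum_image fun _ _ _ _ h => ofPrime_injective h, ← hT2]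
    push_cast
    rw [← Finset.sum_neg_distrib]
    refine Finset.sum_congr rfl fun P _ => ?_
    have h5 := lg_ofPrime (k := k) (K := K) P hb0
    have h6 : (ofPrime k K P).lg y = (ofPrime k K P).lg
      (algebraMap (integralClosure (Algebra.adjoin k {y}) K) K b) := congrArg _ hby.symm
    rw [deg_ofPrime, h6, h5, mul_neg]

end

end Pool.Agent.H4FF
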