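import Pool.Agent.H4FF.Block

/-!
Ranks of the restrictions of a vector.
-/

namespace Pool.Agent.H4FF

open Module Submodule
open Pool.Agent.H4Abcd (nD nO lvl act spanW wle)

universe u v w

section

variable {K : Type v} [Field K] {V V1 V2 : Type*} [AddCommGroup V] [Module K V]
  [FiniteDimensional K V] [AddCommGroup V1] [Module K V1] [AddCommGroup V2] [Module K V2]
  [FiniteDimensional K V2]

theorem finrank_add_one_le (W : Submodule K V) (f : V →ₗ[K] V1) (θ : V →ₗ[K] V2)
    (Y : Submodule K V2) (hθ : ∀ x ∈ W, θ x ∈ Y)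
    (hinj : ∀ x ∈ W, f x = 0 → θ x = 0 → x = 0) (y : V2) (hy : y ∈ Y)
    (hne : ∀ x ∈ W, f x = 0 → θ x ≠ y) :
    finrank K W + 1 ≤ finrank K (W.map f) + finrank K Y := by
  have h1 := (f.domRestrict W).finrank_range_add_finrank_ker
  rw [LinearMap.range_domRestrict] at h1
  have h2 : finrank K (LinearMap.ker (f.domRestrict W)) = finrank K (W ⊓ LinearMap.ker f : Submodule K V) := by
    rw [LinearMap.ker_domRestrict, ← finrank_map_subtype_eq, Submodule.map_comap_subtype]
  set W0 : Submodule K V := W ⊓ LinearMap.ker f with hW0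
  have hg : Function.Injective (θ.domRestrict W0) := by
    rw [← LinearMap.ker_eq_bot, LinearMap.ker_eq_bot']
    rintro ⟨x, hx⟩ hx0
    exact Subtype.ext (hinj x hx.1 hx.2 hx0)
  have h3 : finrank K (LinearMap.range (θ.domRestrict W0)) = finrank K W0 :=
    LinearMap.finrank_range_of_inj hg
  have h4 : LinearMap.range (θ.domRestrict W0) < Y := by
    refine lt_of_le_of_ne ?_ ?_
    · rintro _ ⟨x, rfl⟩
      exact hθ x x.2.1
    · intro h
      rw [← h] at hy
      obtain ⟨x, hx⟩ := hy
      exact hne x x.2.1 x.2.2 hx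
  have h5 := Submodule.finrank_lt_finrank_of_lt h4
  omega

end

section

variable {K : Type v} [Field K] [Algebra ℚ K] {ι : Type w} {n : ℕ}
variable (E : Option ι → Derivation ℚ K K)

/-- Restriction of a vector to a set of coordinates. -/
def res (T : Finset (Fin n)) (z : Fin n → K) : Fin n → K := fun i => if i ∈ T then z i else 0

omit [Algebra ℚ K] in
theorem res_univ (z : Fin n → K) : res Finset.univ z = z := by
  funext i; simp [res]

theorem act_res (T : Finset (Fin n)) (z : Fin n → K) (w : List (Option ι)) :
    act E (res T z) w = res T (act E z w) := by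
  induction w with
  | nil => rfl
  | cons l w ih =>
    funext i
    change E l (act E (res T z) w i) = _
    rw [ih]
    by_cases h : i ∈ T
    · simp [res, h, act]
    · simp [res, h]

/-- Restriction as a linear map. -/
def resL (T : Finset (Fin n)) : (Fin n → K) →ₗ[K] (Fin n → K) where
  toFun := res T
  map_add' x y := by
    funext i
    by_cases h : i ∈ T <;> simp [res, h]
  map_smul' c x := by
    funext i
    by_cases h : i ∈ T <;> simp [res, h]

/-- The rank of the words of length at most one. -/
noncomputable def rho (z : Fin n → K) (T : Finset (Fin n)) : ℕ :=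
  finrank K (spanW E (res T z) (wle 1))

theorem rho_le_card (z : Fin n → K) (T : Finset (Fin n)) : rho E z T ≤ T.card := by
  classical
  let f : (Fin n → K) →ₗ[K] (T → K) := LinearMap.funLeft K K Subtype.val
  let g := f.domRestrict (spanW E (res T z) (wle 1))
  have hg : Function.Injective g := by
    rw [← LinearMap.ker_eq_bot, LinearMap.ker_eq_bot']
    rintro ⟨x, hx⟩ hx0
    have h1 : ∀ i, i ∉ T → x i = 0 := by
      have h2 : spanW E (res T z) (wle 1) ≤ LinearMap.ker (resL (K := K) Tᶜ) := by
        rw [spanW, span_le]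
        rintro _ ⟨u, -, rfl⟩
        rw [act_res]
        change resL Tᶜ (res T (act E z u)) = 0
        funext i
        by_cases h : i ∈ T <;> simp [resL, res, h]
      intro i hi
      have h3 : resL (K := K) Tᶜ x = 0 := h2 hx
      have h4 := congrFun h3 i
      simpa [resL, res, hi] using h4
    apply Subtype.ext
    funext i
    change x i = 0
    by_cases hi : i ∈ T
    · exact congrFun hx0 ⟨i, hi⟩
    · exact h1 i hi
  have h := LinearMap.finrank_le_finrank_of_injective hg
  rwa [finrank_fintype_fun_eq_card, Fintype.card_coe] at h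

variable {N : ℕ} (z : Fin n → K) (S I : Finset (Fin n)) (e : Fin N → Fin n) (lam mu : Fin n → K)

/-- The vector of a block. -/
def blockVec (x : Fin n → K) : Fin (N + 1) → K :=
  Fin.cons (∑ j ∈ S, mu j * x j) fun j => lam (e j) * x (e j)

/-- `blockVec` as a linear map. -/
def blockL : (Fin n → K) →ₗ[K] (Fin (N + 1) → K) where
  toFun := blockVec S e lam mu
  map_add' x y := by
    funext i
    refine Fin.cases ?_ (fun i => ?_) i
    · simp [blockVec, mul_add, Finset.sum_add_distrib]
    · simp [blockVec, mul_add]
  map_smul' c x := by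
    funext i
    refine Fin.cases ?_ (fun i => ?_) i
    · simp [blockVec, Finset.mul_sum, mul_left_comm]
    · simp [blockVec, mul_left_comm]

theorem act_blockVec (hlam : ∀ i, IsAlgebraic ℚ (lam i)) (hmu : ∀ i, IsAlgebraic ℚ (mu i))
    (w : List (Option ι)) :
    act E (blockVec S e lam mu z) w = blockVec S e lam mu (act E z w) := by
  have h0 : ∀ l c, IsAlgebraic ℚ c → ∀ x, E l (c * x) = c * E l x := by
    intro l c hc x
    rw [Derivation.leibniz, H4Abcd.der_algebraic (E l) c hc, smul_zero, add_zero, smul_eq_mul]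
  induction w with
  | nil => rfl
  | cons l w ih =>
    funext i
    change E l (act E (blockVec S e lam mu z) w i) = _
    rw [ih]
    refine Fin.cases ?_ (fun i => ?_) i
    · simp only [blockVec, Fin.cons_zero, map_sum]
      exact Finset.sum_congr rfl fun j _ => h0 l _ (hmu j) _
    · simp only [blockVec, Fin.cons_succ]
      exact h0 l _ (hlam _) _

omit [Algebra ℚ K] in
theorem blockVec_res (h : ∀ j, e j ∈ S ∪ I) :
    blockVec S e lam mu (res (S ∪ I) z) = blockVec S e lam mu z := by
  funext i
  refine Fin.cases ?_ (fun i => ?_) i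
  · simp only [blockVec, Fin.cons_zero]
    refine Finset.sum_congr rfl fun j hj => ?_
    rw [res, if_pos (Finset.mem_union_left _ hj)]
  · simp only [blockVec, Fin.cons_succ]
    rw [res, if_pos (h i)]

theorem rho_union (hlam : ∀ i, IsAlgebraic ℚ (lam i)) (hmu : ∀ i, IsAlgebraic ℚ (mu i))
    (he : ∀ i, i ∈ I ↔ ∃ j, e j = i) (hl0 : ∀ i ∈ I, lam i ≠ 0)
    (hs : ∑ j ∈ S, mu j * z j ≠ 0) :
    rho E z (S ∪ I) + 1 ≤ rho E z S + finrank K (spanW E (blockVec S e lam mu z) (wle 1)) := by
  classical
  set W := spanW E (res (S ∪ I) z) (wle 1) with hW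
  set Y := spanW E (blockVec S e lam mu z) (wle 1) with hY
  have hres : ∀ x : Fin n → K, resL S (res (S ∪ I) x) = res S x := by
    intro x
    funext i
    by_cases h : i ∈ S <;> simp [resL, res, h]
  have hrange : W.map (resL S) = spanW E (res S z) (wle 1) := by
    rw [hW, spanW, spanW, Submodule.map_span, Set.image_image]
    congr 1
    refine Set.image_congr fun u _ => ?_
    rw [act_res, act_res, hres]
  have hθ : ∀ x ∈ W, blockL S e lam mu x ∈ Y := by
    intro x hx
    have h2 : W ≤ Y.comap (blockL S e lam mu) := by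
      rw [hW, spanW, span_le]
      rintro _ ⟨u, hu, rfl⟩
      change blockVec S e lam mu (act E (res (S ∪ I) z) u) ∈ Y
      rw [act_res, blockVec_res _ _ _ _ _ _ fun j => Finset.mem_union_right _ ((he _).2 ⟨j, rfl⟩),
        ← act_blockVec E z S e lam mu hlam hmu]
      exact H4Abcd.act_mem_spanW E _ hu
    exact h2 hx
  have hsupp : ∀ x ∈ W, ∀ i, i ∉ S ∪ I → x i = 0 := by
    have h2 : W ≤ LinearMap.ker (resL (K := K) (S ∪ I)ᶜ) := by
      rw [hW, spanW, span_le]
      rintro _ ⟨u, -, rfl⟩
      rw [act_res]
      change resL (S ∪ I)ᶜ (res (S ∪ I) (act E z u)) = 0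
      funext i
      by_cases h : i ∈ S ∪ I
      · simp only [resL, LinearMap.coe_mk, AddHom.coe_mk, res, Finset.mem_compl, h,
          not_true_eq_false, if_false, Pi.zero_apply]
      · simp only [resL, LinearMap.coe_mk, AddHom.coe_mk, res, h, if_false, ite_self,
          Pi.zero_apply]
    intro x hx i hi
    have h3 : resL (K := K) (S ∪ I)ᶜ x = 0 := h2 hx
    have h4 := congrFun h3 i
    simp only [resL, LinearMap.coe_mk, AddHom.coe_mk, res, Finset.mem_compl, hi,
      not_false_eq_true, if_true, Pi.zero_apply] at h4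
    exact h4
  have hker : ∀ x : Fin n → K, resL S x = 0 → ∀ i ∈ S, x i = 0 := by
    intro x h2 i hi
    have h3 := congrFun h2 i
    simpa [resL, res, hi] using h3
  have h := finrank_add_one_le W (resL S) (blockL S e lam mu) Y hθ ?_ (blockVec S e lam mu z)
    (H4Abcd.act_mem_spanW E _ (w := []) (by simp [wle])) ?_
  · rw [hrange] at h
    exact h
  · intro x hx hx0 hx1
    funext i
    change x i = 0
    by_cases hiS : i ∈ S
    · exact hker x hx0 i hiS
    · by_cases hiI : i ∈ I
      · obtain ⟨j, rfl⟩ := (he i).1 hiI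
        have h2 : blockVec S e lam mu x = 0 := hx1
        have h3 := congrFun h2 j.succ
        simp only [blockVec, Fin.cons_succ, Pi.zero_apply] at h3
        exact (mul_eq_zero.1 h3).resolve_left (hl0 _ hiI)
      · exact hsupp _ hx i (by simp [hiS, hiI])
  · intro x hx hx0 hx1
    have h3 : blockVec S e lam mu x = blockVec S e lam mu z := hx1
    have h4 := congrFun h3 0
    simp only [blockVec, Fin.cons_zero] at h4
    apply hs
    rw [← h4]
    exact Finset.sum_eq_zero fun j hj => by rw [hker x hx0 j hj, mul_zero]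

end

end Pool.Agent.H4FF
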