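import Pool.Agent.H4FF.Canon

/-!
The degree of the divisor of a derivation of the rational function field.
-/

namespace Pool.Agent.H4FF

open IntermediateField Module IsDedekindDomain

universe u v w

section

variable {k : Type u} {K : Type v} [Field k] [Field K] [Algebra k K] [CharZero k]
variable (hfg : (⊤ : IntermediateField k K).FG) (htr : Algebra.trdeg k K = 1)
variable {R : Type w} [CommRing R] [Algebra R K]

omit [CharZero k] in
theorem isFractionRing_adjoin {y : K} (hy : k⟮y⟯ = ⊤) :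
    IsFractionRing (Algebra.adjoin k {y}) K := by
  apply IsFractionRing.of_field
  intro z
  have hz : z ∈ k⟮y⟯ := by rw [hy]; trivial
  obtain ⟨r, s, rfl⟩ := mem_adjoin_simple_iff k z |>.1 hz
  exact ⟨⟨_, Polynomial.aeval_mem_adjoin_singleton k y⟩,
    ⟨_, Polynomial.aeval_mem_adjoin_singleton k y⟩, rfl⟩

omit [CharZero k] in
include htr in
theorem transcendental_of_top {y : K} (hy : k⟮y⟯ = ⊤) : Transcendental k y := by
  intro h
  have h1 : Algebra.IsAlgebraic k k⟮y⟯ := isAlgebraic_adjoin_simple h.isIntegral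
  have h2 : Algebra.IsAlgebraic k K := by
    refine ⟨fun z => ?_⟩
    have hz : z ∈ k⟮y⟯ := by rw [hy]; trivial
    exact (h1.isAlgebraic ⟨z, hz⟩).algebraMap
  have h3 := trdeg_eq_zero_iff.2 h2
  rw [htr] at h3
  exact one_ne_zero h3

include hfg htr in
theorem lg_der_eq (δ : Derivation R K K) (hδ : ∀ c : k, δ (algebraMap k K c) = 0)
    (hδ0 : ∃ f, δ f ≠ 0) (v : Place k K) {t : K} (ht : v.lg t = -1) {y : K}
    (hy : k⟮y⟯ = ⊤) (hv : v.val y ≤ 1) : v.lg (δ t) = v.lg (δ y) := by
  have hyt := transcendental_of_top htr hy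
  have hδy : δ y ≠ 0 := by
    intro h0
    obtain ⟨f, hf⟩ := hδ0
    exact hf (der_eq_zero htr δ hδ hyt h0 f)
  have hδt := der_unif_ne_zero hfg htr v δ hδ hδ0 ht
  have htle : v.val t ≤ 1 := by
    rw [← v.lg_nonpos_iff (ne_zero_of_lg ht), ht]; norm_num
  apply le_antisymm
  · rw [v.lg_le_lg hδt hδy]
    have i1 := isPrincipalIdealRing_adjoin (k := k) y
    have i2 := isFractionRing_adjoin hy
    have hB : ∀ a : Algebra.adjoin k {y}, v.val (algebraMap _ K a) ≤ 1 := by
      rintro ⟨a, ha⟩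
      change v.val a ≤ 1
      induction ha using Algebra.adjoin_induction with
      | mem x hx =>
        rw [Set.mem_singleton_iff] at hx
        rw [hx]; exact hv
      | algebraMap c => exact v.triv_le c
      | add x x' _ _ h1 h2 => exact (v.val.map_add _ _).trans (max_le h1 h2)
      | mul x x' _ _ h1 h2 => rw [map_mul]; exact mul_le_one' h1 h2
    obtain ⟨P, rfl⟩ := exists_ofPrime (B := Algebra.adjoin k {y}) v hB
    refine drop_bound δ _ _ (fun c => by rw [hδ, map_zero]; exact zero_le) {y} ?_ ?_ htle ?_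
    · rintro g rfl; exact hv
    · rintro g rfl; exact le_rfl
    · obtain ⟨a, d, hd⟩ := P.exists_primeCompl_mul_eq_of_integer t htle
      exact ⟨a, a.2, (d : Algebra.adjoin k {y}), (d : Algebra.adjoin k {y}).2,
        P.valuation_eq_one_iff_notMem.2 d.2, hd⟩
  · rw [v.lg_le_lg hδy hδt]
    exact sharp' hfg htr v δ _ (fun c => by rw [hδ, map_zero]; exact zero_le) ht le_rfl hv

include hfg htr in
/-- For a rational function field the degree is `-2`. -/
theorem canon_rat (δ : Derivation R K K) (hδ : ∀ c : k, δ (algebraMap k K c) = 0)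
    (hδ0 : ∃ f, δ f ≠ 0) (t : Place k K → K) (ht : ∀ v : Place k K, v.lg (t v) = -1) {x : K}
    (hx : k⟮x⟯ = ⊤) : ∑ᶠ v : Place k K, (v.deg : ℤ) * v.lg (δ (t v)) = -2 := by
  classical
  have hxt := transcendental_of_top htr hx
  have hx0 : x ≠ 0 := fun h => hxt (by rw [h]; exact isAlgebraic_zero)
  have hδx : δ x ≠ 0 := by
    intro h0
    obtain ⟨f, hf⟩ := hδ0
    exact hf (der_eq_zero htr δ hδ hxt h0 f)
  have hu : k⟮x⁻¹⟯ = ⊤ := by rw [adjoin_inv, hx]
  have hut := transcendental_of_top htr hu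
  have i1 := finiteDimensional_adjoin hfg htr hut
  obtain ⟨T, hT1, hT2⟩ := zeros hut
  have h1 : finrank k⟮x⁻¹⟯ K = 1 := by rw [hu]; exact IntermediateField.finrank_top
  rw [h1] at hT2
  have h2 : ∀ v : Place k K, (v.deg : ℤ) * v.lg (δ (t v)) = (v.deg : ℤ) * v.lg (δ x) +
      if v ∈ T then 2 * ((v.deg : ℤ) * v.lg x⁻¹) else 0 := by
    intro v
    split_ifs with hvT
    · rw [hT1] at hvT
      rw [lg_der_eq hfg htr δ hδ hδ0 v (ht v) hu hvT.le, Derivation.leibniz_inv, smul_eq_mul,
        neg_mul]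
      have h3 : v.lg (-(x⁻¹ ^ 2 * δ x)) = v.lg (x⁻¹ ^ 2 * δ x) := by
        rw [Place.lg, Valuation.map_neg]; rfl
      rw [h3, v.lg_mul (pow_ne_zero _ (inv_ne_zero hx0)) hδx, v.lg_pow]
      push_cast
      ring
    · have h3 : v.val x ≤ 1 := by
        rw [hT1, not_lt, map_inv₀] at hvT
        exact (one_le_inv₀ (zero_lt_iff.2 (v.val_ne_zero hx0))).1 hvT
      rw [lg_der_eq hfg htr δ hδ hδ0 v (ht v) hx h3, add_zero]
  rw [finsum_congr h2, finsum_add_distrib (finite_support_mul (finite_support hfg htr (δ x))),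
    prod_formula hfg htr, zero_add, finsum_eq_sum_of_support_subset _ (s := T)]
  · rw [Finset.sum_congr rfl (g := fun v : Place k K => 2 * ((v.deg : ℤ) * v.lg x⁻¹)),
      ← Finset.mul_sum, hT2]
    · rfl
    · intro v hv
      rw [if_pos hv]
  · intro v hv
    by_contra h
    apply hv
    exact if_neg h
  · apply T.finite_toSet.subset
    intro v hv
    by_contra h
    apply hv
    exact if_neg h

end

end Pool.Agent.H4FF
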